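import Mathlib
import Pool.Agent.MP_a43263_nt.R2.Mer
import Pool.Agent.Results.MP_110442_nt.Quartic

-- ======== part 0: formerly Pool.Agent.MP_110442_nt.Cnt.Kub
section MrgPart0

/-! Periodic averages and a truncated product sieve. -/

set_option autoImplicit false

namespace Pool.Agent.MP_110442_nt.Cnt

open Finset Function

theorem crt2 {a b : ℕ} (ha : a ≠ 0) (hb : b ≠ 0) (h : Nat.Coprime a b) {f g : ℕ → ℝ}
    (hf : Periodic f a) (hg : Periodic g b) :
    ∑ l ∈ range (a * b), f l * g l = (∑ l ∈ range a, f l) * ∑ l ∈ range b, g l := by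
  rw [sum_mul_sum, ← sum_product']
  refine sum_nbij (fun l => (l % a, l % b)) ?_ ?_ ?_ ?_
  · intro l _
    simp [Nat.mod_lt _ (Nat.pos_of_ne_zero ha), Nat.mod_lt _ (Nat.pos_of_ne_zero hb)]
  · intro l hl m hm e
    simp only [Prod.mk.injEq] at e
    have := (Nat.modEq_and_modEq_iff_modEq_mul h).1 ⟨e.1, e.2⟩
    exact Nat.ModEq.eq_of_lt_of_lt this (by simpa using hl) (by simpa using hm)
  · rintro ⟨x, y⟩ hxy
    simp only [coe_product, coe_range, Set.mem_prod, Set.mem_Iio] at hxy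
    refine ⟨Nat.chineseRemainder h x y, by simpa using Nat.chineseRemainder_lt_mul h x y ha hb, ?_⟩
    have h1 := (Nat.chineseRemainder h x y).2.1
    have h2 := (Nat.chineseRemainder h x y).2.2
    simp only [Prod.mk.injEq]
    exact ⟨Eq.trans h1 (Nat.mod_eq_of_lt hxy.1), Eq.trans h2 (Nat.mod_eq_of_lt hxy.2)⟩
  · intro l _
    rw [hf.map_mod_nat, hg.map_mod_nat]

theorem crt (S : Finset ℕ) (q : ℕ → ℕ) (h0 : ∀ p ∈ S, q p ≠ 0)
    (hq : ∀ p ∈ S, ∀ p' ∈ S, p ≠ p' → Nat.Coprime (q p) (q p')) (φ : ℕ → ℕ → ℝ)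
    (hφ : ∀ p ∈ S, Periodic (φ p) (q p)) :
    Periodic (fun l => ∏ p ∈ S, φ p l) (∏ p ∈ S, q p) ∧
      ∑ l ∈ range (∏ p ∈ S, q p), ∏ p ∈ S, φ p l = ∏ p ∈ S, ∑ l ∈ range (q p), φ p l := by
  have per : ∀ T ⊆ S, Periodic (fun l => ∏ p ∈ T, φ p l) (∏ p ∈ T, q p) := by
    intro T hT l
    refine prod_congr rfl fun p hp => ?_
    obtain ⟨c, hc⟩ := dvd_prod_of_mem q hp
    rw [hc, mul_comm]
    exact (hφ p (hT hp)).nat_mul c l
  refine ⟨per S Subset.rfl, ?_⟩
  induction S using Finset.induction_on with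
  | empty => simp
  | insert p S hp ih =>
    have sub := subset_insert p S
    simp only [prod_insert hp]
    rw [crt2 (h0 p (mem_insert_self _ _)) (prod_ne_zero_iff.2 fun x hx => h0 x (sub hx))
      (Nat.Coprime.prod_right fun x hx => hq p (mem_insert_self _ _) x (sub hx)
        (fun e => hp (e ▸ hx))) (hφ p (mem_insert_self _ _)) (per S sub),
      ih (fun x hx => h0 x (sub hx)) (fun x hx y hy => hq x (sub hx) y (sub hy))
        (fun x hx => hφ x (sub hx)) fun T hT => per T (hT.trans sub)]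

theorem shift {F : ℕ → ℝ} {D : ℕ} (hF : Periodic F D) (a : ℕ) :
    ∑ i ∈ range D, F (a + i) = ∑ i ∈ range D, F i := by
  induction a with
  | zero => simp
  | succ a ih =>
    have h1 := sum_range_succ (fun i => F (a + i)) D
    have h2 := sum_range_succ' (fun i => F (a + i)) D
    simp only [add_zero] at h2
    rw [hF a, ih] at h1
    have : ∑ i ∈ range D, F (a + 1 + i) = ∑ i ∈ range D, F (a + (i + 1)) :=
      sum_congr rfl fun i _ => by rw [add_assoc, add_comm 1 i]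
    linarith

theorem per_bound {F : ℕ → ℝ} {D : ℕ} (hD : D ≠ 0) (hF : Periodic F D) (h1 : ∀ l, |F l| ≤ 1)
    (N a : ℕ) : |∑ i ∈ range N, F (a + i) - N * ((∑ i ∈ range D, F i) / D)| ≤ 2 * D := by
  have hD' : (0 : ℝ) < D := by exact_mod_cast Nat.pos_of_ne_zero hD
  have bd : ∀ N a : ℕ, |∑ i ∈ range N, F (a + i)| ≤ N := fun N a =>
    (abs_sum_le_sum_abs _ _).trans ((sum_le_card_nsmul _ _ 1 fun i _ => h1 _).trans (by simp))
  induction N using Nat.strong_induction_on generalizing a with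
  | _ N ih =>
    rcases lt_or_ge N D with h | h
    · have h2 : |(∑ i ∈ range D, F i) / D| ≤ 1 := by
        rw [abs_div, abs_of_pos hD', div_le_one hD']
        simpa using bd D 0
      have h3 : (N : ℝ) ≤ D := by exact_mod_cast h.le
      have h4 : |(N : ℝ) * ((∑ i ∈ range D, F i) / D)| ≤ N := by
        rw [abs_mul, Nat.abs_cast]
        exact mul_le_of_le_one_right (Nat.cast_nonneg _) h2
      have := abs_sub (∑ i ∈ range N, F (a + i)) (N * ((∑ i ∈ range D, F i) / D))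
      linarith [bd N a]
    · obtain ⟨M, rfl⟩ := Nat.exists_eq_add_of_le h
      have := ih M (by omega) (a + D)
      rw [sum_range_add, shift hF]
      simp only [add_assoc] at this
      have e : ∑ i ∈ range D, F i + ∑ i ∈ range M, F (a + (D + i)) -
          ((D + M : ℕ) : ℝ) * ((∑ i ∈ range D, F i) / D) =
          ∑ i ∈ range M, F (a + (D + i)) - M * ((∑ i ∈ range D, F i) / D) := by
        push_cast; field_simp; ring
      rwa [e]

/-- The mean over a period. -/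
noncomputable def mean (F : ℕ → ℝ) (D : ℕ) : ℝ := (∑ i ∈ range D, F i) / D

/-- Data of a family of periodic functions with coprime periods. -/
structure Per (P : Finset ℕ) (q : ℕ → ℕ) (Q : ℕ) (φ : ℕ → ℕ → ℝ) : Prop where
  pos : ∀ p ∈ P, q p ≠ 0
  le : ∀ p ∈ P, q p ≤ Q
  cop : ∀ p ∈ P, ∀ p' ∈ P, p ≠ p' → Nat.Coprime (q p) (q p')
  per : ∀ p ∈ P, Periodic (φ p) (q p)
  bd : ∀ p ∈ P, ∀ l, |φ p l| ≤ 1

theorem kub {P : Finset ℕ} {q : ℕ → ℕ} {Q : ℕ} {φ : ℕ → ℕ → ℝ} (h : Per P q Q φ) (hQ : 1 ≤ Q)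
    {S : Finset ℕ} (hS : S ⊆ P) {r : ℕ} (hr : S.card ≤ r) (N a : ℕ) :
    |∑ i ∈ range N, ∏ p ∈ S, φ p (a + i) - N * ∏ p ∈ S, mean (φ p) (q p)| ≤ 2 * (Q : ℝ) ^ r := by
  obtain ⟨h1, h2⟩ := crt S q (fun p hp => h.pos p (hS hp))
    (fun p hp p' hp' => h.cop p (hS hp) p' (hS hp')) φ fun p hp => h.per p (hS hp)
  have h3 := per_bound (prod_ne_zero_iff.2 fun p hp => h.pos p (hS hp)) h1 (fun l => by
    rw [abs_prod]
    exact prod_le_one (fun _ _ => abs_nonneg _) fun p hp => h.bd p (hS hp) l) N a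
  rw [h2, Nat.cast_prod, ← prod_div_distrib] at h3
  refine h3.trans (mul_le_mul_of_nonneg_left ?_ (by norm_num))
  have : ∏ p ∈ S, q p ≤ Q ^ r :=
    (prod_le_pow_card _ _ Q fun p hp => h.le p (hS hp)).trans (Nat.pow_le_pow_right hQ hr)
  exact_mod_cast this

theorem prod_le_exp {P : Finset ℕ} {x : ℕ → ℝ} (h : ∀ p ∈ P, 0 ≤ 1 + x p) :
    ∏ p ∈ P, (1 + x p) ≤ Real.exp (∑ p ∈ P, x p) := by
  rw [Real.exp_sum]
  exact prod_le_prod h fun p _ => by linarith [Real.add_one_le_exp (x p)]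

theorem tail_hi {P : Finset ℕ} {x : ℕ → ℝ} (hx : ∀ p ∈ P, 0 ≤ x p) {j : ℕ} {A : Finset (Finset ℕ)}
    (hA : ∀ S ∈ A, S ⊆ P ∧ j ≤ S.card) :
    ∑ S ∈ A, ∏ p ∈ S, x p ≤ Real.exp (8 * ∑ p ∈ P, x p) / 8 ^ j := by
  have h0 : ∀ S ⊆ P, 0 ≤ ∏ p ∈ S, x p := fun S hS => prod_nonneg fun p hp => hx p (hS hp)
  rw [le_div_iff₀ (by positivity), sum_mul, mul_sum]
  refine le_trans ?_ (prod_le_exp fun p hp => by linarith [hx p hp])
  rw [prod_one_add]
  refine le_trans (sum_le_sum fun S hS => ?_) (sum_le_sum_of_subset_of_nonneg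
    (fun S hS => mem_powerset.2 (hA S hS).1) fun S hS _ =>
      prod_nonneg fun p hp => by linarith [hx p (mem_powerset.1 hS hp)])
  rw [prod_mul_distrib, prod_const, mul_comm]
  exact mul_le_mul_of_nonneg_right (pow_le_pow_right₀ (by norm_num) (hA S hS).2)
    (h0 S (hA S hS).1)

theorem cnt_lo {P : Finset ℕ} {z j : ℕ} (hz : 1 ≤ z) (hP : P.card ≤ z) {A : Finset (Finset ℕ)}
    (hA : ∀ S ∈ A, S ⊆ P ∧ S.card ≤ j) : (A.card : ℝ) ≤ 3 * (z : ℝ) ^ j := by
  have z1 : (1 : ℝ) ≤ z := by exact_mod_cast hz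
  have z0 : (0 : ℝ) < z := by linarith
  have h1 : ∏ _p ∈ P, (1 + (z : ℝ)⁻¹) ≤ 3 := by
    refine (prod_le_exp fun _ _ => by positivity).trans
      ((Real.exp_le_exp.2 ?_).trans (Real.exp_one_lt_d9.le.trans (by norm_num)))
    rw [sum_const, nsmul_eq_mul, ← div_eq_mul_inv, div_le_one z0]
    exact_mod_cast hP
  rw [prod_one_add] at h1
  refine le_trans ?_ (mul_le_mul_of_nonneg_right h1 (by positivity))
  rw [sum_mul, card_eq_sum_ones, Nat.cast_sum]
  refine le_trans (sum_le_sum fun S hS => ?_) (sum_le_sum_of_subset_of_nonneg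
    (fun S hS => mem_powerset.2 (hA S hS).1) fun S hS _ => by positivity)
  rw [prod_const, inv_pow, Nat.cast_one, ← div_eq_inv_mul, one_le_div (by positivity)]
  exact pow_le_pow_right₀ z1 (hA S hS).2

/-- Subsets with at most `r` elements. -/
def lo (P : Finset ℕ) (r : ℕ) : Finset (Finset ℕ) := P.powerset.filter fun S => S.card ≤ r

theorem mem_lo {P S : Finset ℕ} {r : ℕ} : S ∈ lo P r ↔ S ⊆ P ∧ S.card ≤ r := by
  simp [lo]

theorem prod_split (P : Finset ℕ) (r : ℕ) (x : ℕ → ℝ) : ∏ p ∈ P, (1 + x p) =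
    ∑ S ∈ lo P r, ∏ p ∈ S, x p +
      ∑ S ∈ P.powerset.filter (fun S => ¬ S.card ≤ r), ∏ p ∈ S, x p := by
  rw [prod_one_add, lo, sum_filter_add_sum_filter_not]

theorem prod_lo {P : Finset ℕ} {x y : ℕ → ℝ} (h : ∀ p ∈ P, |x p| ≤ y p) (r : ℕ) :
    |∏ p ∈ P, (1 + x p) - ∑ S ∈ lo P r, ∏ p ∈ S, x p| ≤
      Real.exp (8 * ∑ p ∈ P, y p) / 8 ^ (r + 1) := by
  rw [prod_split P r, add_sub_cancel_left]
  refine (abs_sum_le_sum_abs _ _).trans (le_trans (sum_le_sum fun S hS => ?_)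
    (tail_hi (fun p hp => (abs_nonneg _).trans (h p hp)) fun S hS => by
      simp only [mem_filter, mem_powerset] at hS
      exact ⟨hS.1, by omega⟩))
  rw [abs_prod]
  exact prod_le_prod (fun _ _ => abs_nonneg _) fun p hp =>
    h p (mem_powerset.1 (mem_filter.1 hS).1 hp)

theorem trunc {P : Finset ℕ} {h t : ℕ → ℝ} (ht : ∀ p ∈ P, t p = 0 ∨ t p = 1)
    (hh : ∀ p ∈ P, |h p| ≤ t p) (r : ℕ) :
    ∏ p ∈ P, (1 + h p) = ∑ S ∈ lo P r, ∏ p ∈ S, h p ∨
      1 + |∑ S ∈ lo P r, ∏ p ∈ S, h p| ≤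
        2 ^ (r + 2) * ∑ S ∈ powersetCard (r + 1) P, ∏ p ∈ S, t p := by
  set T := P.filter fun p => t p = 1 with hT
  have z : ∀ S ⊆ P, ¬ S ⊆ T → ∏ p ∈ S, h p = 0 := by
    intro S hS hn
    obtain ⟨p, hp, hp'⟩ := not_subset.1 hn
    have h1 : t p = 0 := (ht p (hS hp)).resolve_right fun e => hp' (mem_filter.2 ⟨hS hp, e⟩)
    exact prod_eq_zero hp (abs_nonpos_iff.1 (h1 ▸ hh p (hS hp)))
  rcases le_or_gt T.card r with hc | hc
  · left
    rw [prod_split P r, sum_eq_zero (s := P.powerset.filter _), add_zero]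
    intro S hS
    simp only [mem_filter, mem_powerset] at hS
    exact z S hS.1 fun e => hS.2 ((card_le_card e).trans hc)
  · right
    have h1 : ((powersetCard (r + 1) T).card : ℝ) ≤
        ∑ S ∈ powersetCard (r + 1) P, ∏ p ∈ S, t p := by
      rw [card_eq_sum_ones, Nat.cast_sum]
      refine le_trans (sum_le_sum fun S hS => ?_) (sum_le_sum_of_subset_of_nonneg
        (powersetCard_mono (filter_subset _ _)) fun S hS _ => prod_nonneg fun p hp =>
          (abs_nonneg _).trans (hh p ((mem_powersetCard.1 hS).1 hp)))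
      rw [Nat.cast_one, prod_eq_one fun p hp => (mem_filter.1 ((mem_powersetCard.1 hS).1 hp)).2]
    have h2 : (lo T r).card ≤ (powersetCard (r + 1) T).card * 2 ^ (r + 1) := by
      refine le_trans (card_le_card (t := (powersetCard (r + 1) T).biUnion powerset) ?_)
        (card_biUnion_le_card_mul _ _ _ fun S hS => by
          rw [card_powerset, (mem_powersetCard.1 hS).2])
      intro S hS
      obtain ⟨U, h1, h2, h3⟩ := exists_subsuperset_card_eq (mem_lo.1 hS).1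
        ((mem_lo.1 hS).2.trans (Nat.le_succ r)) hc
      exact mem_biUnion.2 ⟨U, mem_powersetCard.2 ⟨h2, h3⟩, mem_powerset.2 h1⟩
    have h3 : |∑ S ∈ lo P r, ∏ p ∈ S, h p| ≤ (lo T r).card := by
      rw [← sum_subset (s₁ := lo T r)
        (fun S hS => mem_lo.2 ⟨(mem_lo.1 hS).1.trans (filter_subset _ _), (mem_lo.1 hS).2⟩)
        fun S hS hn => z S (mem_lo.1 hS).1 fun e => hn (mem_lo.2 ⟨e, (mem_lo.1 hS).2⟩)]
      refine (abs_sum_le_sum_abs _ _).trans ((sum_le_card_nsmul _ _ 1 fun S hS => ?_).trans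
        (by simp))
      rw [abs_prod]
      refine prod_le_one (fun _ _ => abs_nonneg _) fun p hp => ?_
      have := mem_filter.1 ((mem_lo.1 hS).1 hp)
      exact this.2 ▸ hh p this.1
    have h4 : (1 : ℝ) ≤ (powersetCard (r + 1) T).card := by
      exact_mod_cast card_pos.2 (powersetCard_nonempty.2 hc)
    have h5 : ((lo T r).card : ℝ) ≤ (powersetCard (r + 1) T).card * 2 ^ (r + 1) := by
      exact_mod_cast h2
    have h6 : (1 : ℝ) ≤ 2 ^ (r + 1) := one_le_pow₀ (by norm_num)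
    rw [pow_succ (2 : ℝ) (r + 1)]
    nlinarith

theorem sieve {P : Finset ℕ} {q : ℕ → ℕ} {Q z : ℕ} {h t : ℕ → ℕ → ℝ} (H : Per P q Q h)
    (T : Per P q Q t) (hQ : 1 ≤ Q) (hz : 1 ≤ z) (hP : P.card ≤ z)
    (ht : ∀ p ∈ P, ∀ l, t p l = 0 ∨ t p l = 1) (hh : ∀ p ∈ P, ∀ l, |h p l| ≤ t p l)
    {W lam : ℝ} (W0 : 0 ≤ W) (W1 : W ≤ 1) (hl : ∑ p ∈ P, mean (t p) (q p) ≤ lam) (r N a : ℕ)
    (E : Finset ℕ) (hE : ∀ i ∈ E, i < N ∧ 1 ≤ W * ∏ p ∈ P, (1 + h p (a + i))) :
    (E.card : ℝ) ≤ W * N * ∏ p ∈ P, (1 + mean (h p) (q p)) +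
      3 * N * Real.exp (8 * lam) / 4 ^ (r + 1) + 18 * (2 * z * Q : ℝ) ^ (r + 1) := by
  have hm : ∀ p ∈ P, |mean (h p) (q p)| ≤ mean (t p) (q p) := fun p hp => by
    rw [mean, mean, abs_div, Nat.abs_cast]
    exact div_le_div_of_nonneg_right
      ((abs_sum_le_sum_abs _ _).trans (sum_le_sum fun i _ => hh p hp i)) (Nat.cast_nonneg _)
  set G : ℕ → ℝ := fun l => ∑ S ∈ lo P r, ∏ p ∈ S, h p l with hG
  set e : ℕ → ℝ := fun l => ∑ S ∈ powersetCard (r + 1) P, ∏ p ∈ S, t p l with he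
  have e0 : ∀ l, 0 ≤ e l := fun l => sum_nonneg fun S hS => prod_nonneg fun p hp =>
    (abs_nonneg _).trans (hh p ((mem_powersetCard.1 hS).1 hp) l)
  have pt : ∀ l (c : ℝ), c ≤ 1 → c ≤ W * ∏ p ∈ P, (1 + h p l) →
      c ≤ W * G l + 2 ^ (r + 2) * e l := by
    intro l c c1 c2
    rcases trunc (fun p hp => ht p hp l) (fun p hp => hh p hp l) r with h1 | h1
    · rw [h1] at c2
      have := mul_nonneg (by positivity : (0 : ℝ) ≤ 2 ^ (r + 2)) (e0 l)
      exact c2.trans (le_add_of_nonneg_right this)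
    · have h2 : -|G l| ≤ W * G l := by
        have := neg_abs_le (G l)
        have := abs_nonneg (G l)
        nlinarith
      change 1 + |G l| ≤ 2 ^ (r + 2) * e l at h1
      linarith
  have s1 : (E.card : ℝ) ≤ ∑ i ∈ range N, (W * G (a + i) + 2 ^ (r + 2) * e (a + i)) := by
    rw [card_eq_sum_ones, Nat.cast_sum]
    refine le_trans (sum_le_sum fun i hi => pt _ _ (by simp) (by simpa using (hE i hi).2))
      (sum_le_sum_of_subset_of_nonneg (fun i hi => mem_range.2 (hE i hi).1) fun i _ _ =>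
        pt _ 0 zero_le_one (mul_nonneg W0 (prod_nonneg fun p hp => ?_)))
    linarith [neg_abs_le (h p (a + i)), H.bd p hp (a + i)]
  have N0 : (0 : ℝ) ≤ N := Nat.cast_nonneg _
  set τ := Real.exp (8 * lam) / 8 ^ (r + 1) with hτ
  set ε := 3 * (z : ℝ) ^ (r + 1) * (2 * (Q : ℝ) ^ (r + 1)) with hε
  have mono : Real.exp (8 * ∑ p ∈ P, mean (t p) (q p)) / 8 ^ (r + 1) ≤ τ := by
    rw [hτ]; gcongr
  have gen : ∀ {φ : ℕ → ℕ → ℝ}, Per P q Q φ → ∀ A : Finset (Finset ℕ),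
      (∀ S ∈ A, S ⊆ P ∧ S.card ≤ r + 1) → ∑ i ∈ range N, ∑ S ∈ A, ∏ p ∈ S, φ p (a + i) ≤
        N * ∑ S ∈ A, ∏ p ∈ S, mean (φ p) (q p) + ε := by
    intro φ hφ A hA
    rw [sum_comm, mul_sum]
    refine le_trans (sum_le_sum (g := fun S => N * ∏ p ∈ S, mean (φ p) (q p) +
      2 * (Q : ℝ) ^ (r + 1)) fun S hS => ?_) ?_
    · linarith [(abs_le.1 (kub hφ hQ (hA S hS).1 (hA S hS).2 N a)).2]
    · rw [sum_add_distrib, sum_const, nsmul_eq_mul, hε]
      gcongr
      exact cnt_lo hz hP hA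
  have s2 := gen H (lo P r) fun S hS => ⟨(mem_lo.1 hS).1, (mem_lo.1 hS).2.trans (Nat.le_succ r)⟩
  have s3 := gen T (powersetCard (r + 1) P) fun S hS =>
    ⟨(mem_powersetCard.1 hS).1, (mem_powersetCard.1 hS).2.le⟩
  have s4 := (abs_le.1 ((prod_lo hm r).trans mono)).1
  have s5 := (tail_hi (j := r + 1) (A := powersetCard (r + 1) P)
    (fun p hp => (abs_nonneg _).trans (hm p hp))
    fun S hS => ⟨(mem_powersetCard.1 hS).1, (mem_powersetCard.1 hS).2.ge⟩).trans mono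
  rw [sum_add_distrib, ← mul_sum, ← mul_sum] at s1
  have τ0 : 0 ≤ τ := by positivity
  have ε0 : 0 ≤ ε := by positivity
  have b1 : W * ∑ i ∈ range N, G (a + i) ≤
      W * N * ∏ p ∈ P, (1 + mean (h p) (q p)) + (N * τ + ε) := by
    have c1 : ∑ i ∈ range N, G (a + i) ≤
        N * ∏ p ∈ P, (1 + mean (h p) (q p)) + (N * τ + ε) := by
      refine s2.trans ?_
      nlinarith
    have c2 : W * (N * τ + ε) ≤ N * τ + ε := mul_le_of_le_one_left (by positivity) W1
    nlinarith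
  have b2 : ∑ i ∈ range N, e (a + i) ≤ N * τ + ε := by
    refine s3.trans ?_
    nlinarith
  have b3 : (1 + 2 ^ (r + 2)) * (N * τ + ε) ≤ 3 * 2 ^ (r + 1) * (N * τ + ε) := by
    refine mul_le_mul_of_nonneg_right ?_ (by positivity)
    have h6 : (1 : ℝ) ≤ 2 ^ (r + 1) := one_le_pow₀ (by norm_num)
    rw [pow_succ (2 : ℝ) (r + 1)]
    linarith
  have b4 : 3 * 2 ^ (r + 1) * (N * τ + ε) =
      3 * N * Real.exp (8 * lam) / 4 ^ (r + 1) + 18 * (2 * z * Q : ℝ) ^ (r + 1) := by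
    rw [hτ, hε, show (8 : ℝ) ^ (r + 1) = 2 ^ (r + 1) * 4 ^ (r + 1) by rw [← mul_pow]; norm_num,
      mul_pow, mul_pow]
    field_simp
    ring
  have b5 := mul_le_mul_of_nonneg_left b2 (by positivity : (0 : ℝ) ≤ 2 ^ (r + 2))
  linarith

end Pool.Agent.MP_110442_nt.Cnt

end MrgPart0

-- ======== part 1: formerly Pool.Agent.MP_110442_nt.Cnt.Eul
section MrgPart1

/-! Euler product bounds, sums over multiples, Abel summation. -/

set_option autoImplicit false

namespace Pool.Agent.MP_110442_nt.Cnt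

open Finset Function
open Pool.Agent.MP_a43263_nt.R2 (pri)
open Pool.Agent.MP_a43263_nt.R2.Mer (mem_pri second sum_sq_le log_pos)

theorem euler (f : ℕ → ℝ) (f0 : ∀ n, 0 ≤ f n) (f1 : f 1 = 1)
    (hm : ∀ a b, Nat.Coprime a b → f (a * b) = f a * f b) (b : ℕ → ℝ) (P : Finset ℕ)
    (hP : ∀ p ∈ P, p.Prime) (hb : ∀ p ∈ P, ∀ E, ∑ e ∈ range E, f (p ^ e) ≤ b p) (A : Finset ℕ)
    (hA : ∀ n ∈ A, n ≠ 0 ∧ n.primeFactors ⊆ P) : ∑ n ∈ A, f n ≤ ∏ p ∈ P, b p := by
  induction P using Finset.induction_on generalizing A with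
  | empty =>
    refine (sum_le_sum_of_subset_of_nonneg (t := {1}) (fun n hn => ?_) fun _ _ _ => f0 _).trans
      (by simp [f1])
    have := hA n hn
    rw [subset_empty, Nat.primeFactors_eq_empty] at this
    simp only [mem_singleton]
    omega
  | insert p P hp ih =>
    have pp := hP p (mem_insert_self _ _)
    have sub := subset_insert p P
    have h1 := ih (fun x hx => hP x (sub hx)) (fun x hx => hb x (sub hx))
      (A.image fun n => ordCompl[p] n) (by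
        intro m hm'
        obtain ⟨n, hn, rfl⟩ := mem_image.1 hm'
        refine ⟨(Nat.ordCompl_pos p (hA n hn).1).ne', fun x hx => ?_⟩
        have h2 := (hA n hn).2 (Nat.primeFactors_mono (Nat.ordCompl_dvd n p) (hA n hn).1 hx)
        refine (mem_insert.1 h2).resolve_left fun e => ?_
        subst e
        exact Nat.not_dvd_ordCompl pp (hA n hn).1 (Nat.dvd_of_mem_primeFactors hx))
    have h2 := hb p (mem_insert_self _ _) (A.sup (fun n => n.factorization p) + 1)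
    rw [prod_insert hp]
    refine le_trans ?_ (mul_le_mul h2 h1 (sum_nonneg fun _ _ => f0 _)
      ((sum_nonneg fun _ _ => f0 _).trans h2))
    rw [sum_mul_sum, ← sum_product']
    have inj : Set.InjOn (fun n : ℕ => (n.factorization p, ordCompl[p] n)) A := by
      intro n _ m _ e
      simp only [Prod.mk.injEq] at e
      rw [← Nat.ordProj_mul_ordCompl_eq_self n p, ← Nat.ordProj_mul_ordCompl_eq_self m p, e.2, e.1]
    have e : ∑ n ∈ A, f n = ∑ x ∈ A.image (fun n : ℕ => (n.factorization p, ordCompl[p] n)),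
        f (p ^ x.1) * f x.2 := by
      rw [sum_image inj]
      refine sum_congr rfl fun n hn => ?_
      rw [← hm _ _ ((Nat.coprime_ordCompl pp (hA n hn).1).pow_left _),
        Nat.ordProj_mul_ordCompl_eq_self]
    rw [e]
    refine sum_le_sum_of_subset_of_nonneg (fun x hx => ?_) fun _ _ _ => mul_nonneg (f0 _) (f0 _)
    obtain ⟨n, hn, rfl⟩ := mem_image.1 hx
    exact mem_product.2 ⟨mem_range.2 (Nat.lt_succ_of_le
      (le_sup (f := fun n : ℕ => n.factorization p) hn)), mem_image_of_mem _ hn⟩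

theorem geo {g : ℕ → ℝ} {c x : ℝ} (hx : 1 < x) (hc : 0 ≤ c) (g0 : g 0 = 1)
    (hg : ∀ e, g (e + 1) ≤ c / x ^ (e + 1)) (E : ℕ) : ∑ e ∈ range E, g e ≤ 1 + c / (x - 1) := by
  have x1 : 0 < x - 1 := by linarith
  have x0 : 0 < x := by linarith
  have h : ∀ E, ∑ e ∈ range (E + 1), g e ≤ 1 + c / (x - 1) - c / ((x - 1) * x ^ E) := by
    intro E
    induction E with
    | zero => simp [g0]
    | succ E ih =>
      rw [sum_range_succ]
      have : c / ((x - 1) * x ^ E) - c / ((x - 1) * x ^ (E + 1)) = c / x ^ (E + 1) := by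
        field_simp
        ring
      linarith [hg E]
  cases E with
  | zero => simp; positivity
  | succ E => exact (h E).trans (sub_le_self _ (by positivity))

theorem mertens : ∃ C : ℝ, 0 ≤ C ∧ ∀ a b : ℕ, 2 ≤ a → a ≤ b →
    |∑ p ∈ pri a b, (1 : ℝ) / p - Real.log (Real.log b / Real.log a)| ≤ C := by
  obtain ⟨C, h0, h⟩ := second
  refine ⟨C / Real.log (2 : ℕ), div_nonneg h0 (log_pos le_rfl).le, fun a b ha hab =>
    (h a b ha hab).trans (div_le_div_of_nonneg_left h0 (log_pos le_rfl)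
      (Real.log_le_log (by norm_num) (by exact_mod_cast ha)))⟩

theorem inv_pred {p : ℕ} (hp : 2 ≤ p) : (1 : ℝ) / (p - 1) ≤ 1 / p + 2 * (1 / (p : ℝ) ^ 2) := by
  have h : (2 : ℝ) ≤ p := by exact_mod_cast hp
  have h1 : (0 : ℝ) < p - 1 := by linarith
  rw [← sub_nonneg]
  have : (1 : ℝ) / p + 2 * (1 / (p : ℝ) ^ 2) - 1 / (p - 1) = (p - 2) / (p ^ 2 * (p - 1)) := by
    field_simp
    ring
  rw [this]
  exact div_nonneg (by linarith) (by positivity)

theorem rough_sum : ∃ C : ℝ, 0 ≤ C ∧ ∀ y Y : ℕ, 2 ≤ y → y ≤ Y → ∀ A : Finset ℕ,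
    (∀ n ∈ A, n ≠ 0 ∧ n ≤ Y ∧ ∀ p ∈ pri 0 y, ¬ p ∣ n) →
    ∑ n ∈ A, (1 : ℝ) / n ≤ C * (Real.log Y / Real.log y) := by
  obtain ⟨C, -, h⟩ := mertens
  refine ⟨Real.exp (C + 4), (Real.exp_pos _).le, fun y Y hy hY A hA => ?_⟩
  have h1 := euler (fun n => (1 : ℝ) / n) (fun n => by positivity) (by simp)
    (fun a b _ => by push_cast; rw [one_div_mul_one_div]) (fun p => 1 + 1 / (p - 1)) (pri y Y)
    (fun p hp => (mem_pri.1 hp).2)
    (fun p hp => geo (by exact_mod_cast (mem_pri.1 hp).2.one_lt) zero_le_one (by simp)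
      fun e => by simp) A fun n hn => ⟨(hA n hn).1, fun p hp => by
        obtain ⟨a1, a2, a3⟩ := Nat.mem_primeFactors.1 hp
        refine mem_pri.2 ⟨⟨?_, (Nat.le_of_dvd (Nat.pos_of_ne_zero a3) a2).trans (hA n hn).2.1⟩, a1⟩
        by_contra hc
        exact (hA n hn).2.2 p (mem_pri.2 ⟨⟨a1.pos, by omega⟩, a1⟩) a2⟩
  have h2 : ∀ p ∈ pri y Y, 2 ≤ p := fun p hp => (mem_pri.1 hp).2.two_le
  refine h1.trans ((prod_le_exp fun p hp => ?_).trans ?_)
  · have : (2 : ℝ) ≤ p := by exact_mod_cast h2 p hp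
    have : (0 : ℝ) < p - 1 := by linarith
    positivity
  · rw [← Real.exp_log (div_pos (log_pos (hy.trans hY)) (log_pos hy)), ← Real.exp_add,
      Real.exp_le_exp]
    refine (sum_le_sum fun p hp => inv_pred (h2 p hp)).trans ?_
    rw [sum_add_distrib, ← mul_sum]
    linarith [(abs_le.1 (h y Y hy hY)).2, sum_sq_le y Y]

theorem sum_dvd {d : ℕ} (hd : 0 < d) (F : ℕ → ℝ) (u w : ℕ) :
    ∑ a ∈ Ioc u w, (if d ∣ a then F a else 0) = ∑ a ∈ Ioc (u / d) (w / d), F (d * a) := by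
  rw [← sum_filter]
  symm
  refine sum_nbij (fun a => d * a) ?_ ?_ ?_ fun _ _ => rfl
  · intro a ha
    simp only [mem_Ioc, mem_filter] at ha ⊢
    refine ⟨⟨?_, ?_⟩, Dvd.intro _ rfl⟩
    · rw [mul_comm]; exact (Nat.div_lt_iff_lt_mul hd).1 ha.1
    · rw [mul_comm]; exact (Nat.le_div_iff_mul_le hd).1 ha.2
  · intro a _ b _ e
    exact Nat.eq_of_mul_eq_mul_left hd e
  · intro a ha
    simp only [coe_filter, mem_Ioc, Set.mem_ofPred_eq] at ha
    obtain ⟨⟨h1, h2⟩, c, rfl⟩ := ha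
    refine ⟨c, ?_, rfl⟩
    simp only [coe_Ioc, Set.mem_Ioc]
    exact ⟨(Nat.div_lt_iff_lt_mul hd).2 (by rwa [mul_comm c]),
      (Nat.le_div_iff_mul_le hd).2 (by rwa [mul_comm c])⟩

theorem anti {ψ : ℕ → ℝ} {H : ℕ} (h1 : ∀ a, |ψ a| ≤ 1) (h : ∀ a, ψ (a + H) = -ψ a) (u w : ℕ) :
    |∑ a ∈ Ioc u w, ψ a| ≤ H := by
  rcases le_or_gt w u with hw | hw
  · simp [Ioc_eq_empty_of_le hw]
  obtain ⟨N, rfl⟩ := Nat.exists_eq_add_of_le hw.le
  have bd : ∀ a : ℕ, |∑ i ∈ range H, ψ (a + i)| ≤ H := fun a =>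
    (abs_sum_le_sum_abs _ _).trans ((sum_le_card_nsmul _ _ 1 fun i _ => h1 _).trans (by simp))
  have key : 2 * ∑ a ∈ Ioc u (u + N), ψ a =
      ∑ i ∈ range H, ψ (u + 1 + i) - ∑ i ∈ range H, ψ (u + N + 1 + i) := by
    clear hw
    induction N with
    | zero => simp
    | succ N ih =>
      rw [← add_assoc, sum_Ioc_succ_top (by omega), mul_add, ih]
      have h2 := sum_range_succ (fun i => ψ (u + N + 1 + i)) H
      have h3 := sum_range_succ' (fun i => ψ (u + N + 1 + i)) H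
      have h4 : ∑ i ∈ range H, ψ (u + N + 1 + 1 + i) = ∑ i ∈ range H, ψ (u + N + 1 + (i + 1)) :=
        sum_congr rfl fun i _ => by rw [add_assoc (u + N + 1), add_comm 1 i]
      simp only [add_zero] at h3
      rw [h] at h2
      linarith
  have := abs_sub (∑ i ∈ range H, ψ (u + 1 + i)) (∑ i ∈ range H, ψ (u + N + 1 + i))
  rw [← key, abs_mul, abs_two] at this
  linarith [bd (u + 1), bd (u + N + 1)]

theorem abel {c : ℕ → ℝ} {B : ℝ} {t : ℕ} (ht : 0 < t) (h : ∀ w, |∑ a ∈ Ioc t w, c a| ≤ B)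
    (w : ℕ) : |∑ a ∈ Ioc t w, c a / a| ≤ B / t := by
  have t0 : (0 : ℝ) < t := by exact_mod_cast ht
  have B0 : 0 ≤ B := (abs_nonneg _).trans (h 0)
  rcases le_or_gt w t with hw | hw
  · simp only [Ioc_eq_empty_of_le hw, sum_empty, abs_zero]
    positivity
  have key : ∀ w, t ≤ w →
      |∑ a ∈ Ioc t w, c a / a - (∑ a ∈ Ioc t w, c a) / w| ≤ B / t - B / w := by
    intro w hw
    induction w, hw using Nat.le_induction with
    | base => simp
    | succ w hw ih =>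
      have w0 : (0 : ℝ) < w := by exact_mod_cast ht.trans_le hw
      rw [sum_Ioc_succ_top hw, sum_Ioc_succ_top hw]
      push_cast
      set S := ∑ a ∈ Ioc t w, c a with hS
      have e : ∑ a ∈ Ioc t w, c a / a + c (w + 1) / (w + 1) - (S + c (w + 1)) / (w + 1) =
          (∑ a ∈ Ioc t w, c a / a - S / w) + S * (1 / (w * (w + 1))) := by
        field_simp
        ring
      have e2 : B / t - B / (w + 1) = (B / t - B / w) + B * (1 / (w * (w + 1))) := by
        field_simp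
        ring
      rw [e, e2]
      refine (abs_add_le _ _).trans (add_le_add ih ?_)
      rw [abs_mul, abs_of_pos (by positivity : (0 : ℝ) < 1 / (w * (w + 1)))]
      exact mul_le_mul_of_nonneg_right (h w) (by positivity)
  have w0 : (0 : ℝ) < w := by exact_mod_cast ht.trans hw
  have h2 : |(∑ a ∈ Ioc t w, c a) / w| ≤ B / w := by
    rw [abs_div, Nat.abs_cast]
    exact div_le_div_of_nonneg_right (h w) w0.le
  have := abs_add_le (∑ a ∈ Ioc t w, c a / a - (∑ a ∈ Ioc t w, c a) / w)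
    ((∑ a ∈ Ioc t w, c a) / w)
  rw [sub_add_cancel] at this
  linarith [key w hw.le]

theorem harm (n : ℕ) : ∑ a ∈ Ioc 0 n, (1 : ℝ) / a ≤ 1 + Real.log n := by
  have := harmonic_le_one_add_log n
  rw [harmonic_eq_sum_Icc] at this
  simpa [← Icc_add_one_left_eq_Ioc] using this

end Pool.Agent.MP_110442_nt.Cnt

end MrgPart1

-- ======== part 2: formerly Pool.Agent.MP_110442_nt.Cnt.Big
section MrgPart2

/-! A one-sided bound for a real character over the large primes. -/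

set_option autoImplicit false

namespace Pool.Agent.MP_110442_nt.Cnt

open Finset Function
open Pool.Agent.MP_a43263_nt.R2 (pri)
open Pool.Agent.MP_a43263_nt.R2.Mer (mem_pri sum_sq_le log_pos)

/-- A completely multiplicative function that changes sign under a shift. -/
structure Chi (ψ : ℕ → ℝ) (H : ℕ) : Prop where
  zero : ψ 0 = 0
  one : ψ 1 = 1
  mul : ∀ a b, ψ (a * b) = ψ a * ψ b
  bd : ∀ a, |ψ a| ≤ 1
  anti : ∀ a, ψ (a + H) = -ψ a

/-- Indicator of divisibility. -/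
noncomputable def ind (p n : ℕ) : ℝ := if p ∣ n then 1 else 0

/-- Indicator of the integers without prime factor up to `y`. -/
noncomputable def rg (y n : ℕ) : ℝ := if ∀ p ∈ pri 0 y, ¬ p ∣ n then 1 else 0

theorem rg_prod (y n : ℕ) : ∏ p ∈ pri 0 y, (1 + -ind p n) = rg y n := by
  unfold rg ind
  split_ifs with h
  · exact prod_eq_one fun p hp => by simp [h p hp]
  · push Not at h
    obtain ⟨p, hp, hd⟩ := h
    exact prod_eq_zero hp (by simp [hd])

theorem rg_mul (y a b : ℕ) : rg y (a * b) = rg y a * rg y b := by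
  unfold rg
  rw [ite_zero_mul_ite_zero, one_mul]
  refine if_congr ⟨fun h => ⟨fun p hp hd => h p hp (hd.mul_right _),
    fun p hp hd => h p hp (hd.mul_left _)⟩, fun h p hp hd => ?_⟩ rfl rfl
  exact ((mem_pri.1 hp).2.dvd_mul.1 hd).elim (h.1 p hp) (h.2 p hp)

theorem rg_nonneg (y n : ℕ) : 0 ≤ rg y n := by unfold rg; split_ifs <;> norm_num

theorem ind_prod {S : Finset ℕ} (hS : ∀ p ∈ S, p.Prime) (n : ℕ) :
    ∏ p ∈ S, ind p n = ind (∏ p ∈ S, p) n := by
  unfold ind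
  split_ifs with h
  · exact prod_eq_one fun p hp => if_pos ((dvd_prod_of_mem _ hp).trans h)
  · by_contra hc
    refine h (prod_primes_dvd n (fun p hp => (hS p hp).prime) fun p hp => ?_)
    by_contra hd
    exact hc (prod_eq_zero hp (if_neg hd))

theorem card_pri (y : ℕ) : (pri 0 y).card ≤ y := (card_filter_le _ _).trans (by simp)

theorem rg_sum : ∃ C : ℝ, 0 ≤ C ∧ ∀ y Y t : ℕ, 2 ≤ y → y ≤ Y → t ≤ Y →
    ∑ n ∈ Ioc 0 t, rg y n / n ≤ C * (Real.log Y / Real.log y) := by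
  obtain ⟨C, h0, h⟩ := rough_sum
  refine ⟨C, h0, fun y Y t hy hY ht => le_trans (le_of_eq ?_)
    (h y Y hy hY ((Ioc 0 t).filter fun n => ∀ p ∈ pri 0 y, ¬ p ∣ n) fun n hn => ?_)⟩
  · rw [sum_filter]
    refine sum_congr rfl fun n _ => ?_
    unfold rg
    split_ifs <;> simp
  · simp only [mem_filter, mem_Ioc] at hn
    exact ⟨by omega, by omega, hn.2⟩

theorem tail_R {ψ : ℕ → ℝ} {H y r Y : ℕ} {lam : ℝ} (hψ : Chi ψ H) (hy : 1 ≤ y) (hH : 1 ≤ H)
    (hl : ∑ p ∈ pri 0 y, (1 : ℝ) / p ≤ lam)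
    (ht : 2 * (1 + Real.log Y) * Real.exp (8 * lam) ≤ 4 ^ (r + 1)) {t : ℕ} (htY : t ≤ Y) :
    |∑ a ∈ Ioc (3 * y ^ r * H) t, rg y a * ψ a / a| ≤ 2 := by
  set G : ℕ → ℝ := fun a => ∑ S ∈ lo (pri 0 y) r, ∏ p ∈ S, -ind p a with hG
  set e : ℕ → ℝ := fun a => ∑ S ∈ powersetCard (r + 1) (pri 0 y), ∏ p ∈ S, ind p a with he
  have i0 : ∀ p a, 0 ≤ ind p a := fun p a => by unfold ind; split_ifs <;> norm_num
  have e0 : ∀ a, 0 ≤ e a := fun a => sum_nonneg fun S _ => prod_nonneg fun p _ => i0 p a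
  have pt : ∀ a, |rg y a - G a| ≤ 2 ^ (r + 2) * e a := by
    intro a
    rcases trunc (P := pri 0 y) (h := fun p => -ind p a) (t := fun p => ind p a)
      (fun p _ => by unfold ind; split_ifs <;> simp)
      (fun p _ => by rw [abs_neg, abs_of_nonneg (i0 p a)]) r with h | h
    · rw [rg_prod] at h
      rw [h, sub_self, abs_zero]
      exact mul_nonneg (by positivity) (e0 a)
    · refine (abs_sub _ _).trans (le_trans (add_le_add_left ?_ _) h)
      unfold rg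
      split_ifs <;> simp
  have pS : ∀ S ⊆ pri 0 y, (∀ p ∈ S, p.Prime) ∧ 0 < ∏ p ∈ S, p := fun S hS =>
    ⟨fun p hp => (mem_pri.1 (hS hp)).2, prod_pos fun p hp => (mem_pri.1 (hS hp)).2.pos⟩
  have t0 : 0 < 3 * y ^ r * H := by positivity
  have a1 : |∑ a ∈ Ioc (3 * y ^ r * H) t, (G a * ψ a) / a| ≤ 1 := by
    refine (abel (B := 3 * (y : ℝ) ^ r * H) t0 (fun w => ?_) t).trans (le_of_eq ?_)
    · simp only [hG, sum_mul]
      rw [sum_comm]
      refine (abs_sum_le_sum_abs _ _).trans ((sum_le_card_nsmul _ _ (H : ℝ) fun S hS => ?_).trans ?_)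
      · obtain ⟨h1, h2⟩ := pS S (mem_lo.1 hS).1
        have : ∀ a, (∏ p ∈ S, -ind p a) * ψ a =
            (-1) ^ S.card * if (∏ p ∈ S, p) ∣ a then ψ a else 0 := by
          intro a
          rw [prod_neg, ind_prod h1, ind]
          split_ifs <;> simp
        simp only [this]
        rw [← mul_sum, sum_dvd h2]
        simp only [hψ.mul]
        rw [← mul_sum, abs_mul, abs_mul, abs_pow, abs_neg, abs_one, one_pow, one_mul]
        exact (mul_le_of_le_one_left (abs_nonneg _) (hψ.bd _)).trans (anti hψ.bd hψ.anti _ _)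
      · rw [nsmul_eq_mul]
        exact mul_le_mul_of_nonneg_right (cnt_lo hy (card_pri y) fun S hS => mem_lo.1 hS)
          (Nat.cast_nonneg _)
    · push_cast
      exact div_self (by exact_mod_cast t0.ne')
  have a2 : ∑ a ∈ Ioc 0 Y, e a / a ≤ (1 + Real.log Y) * (Real.exp (8 * lam) / 8 ^ (r + 1)) := by
    have L0 : 0 ≤ 1 + Real.log Y := by positivity
    simp only [he, sum_div]
    rw [sum_comm]
    refine le_trans (sum_le_sum (g := fun S : Finset ℕ => (1 + Real.log Y) * ∏ p ∈ S, (1 : ℝ) / (p : ℝ))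
      fun S hS => ?_) ?_
    · obtain ⟨h1, h2⟩ := pS S (mem_powersetCard.1 hS).1
      have : ∀ a : ℕ, (∏ p ∈ S, ind p a) / a =
          if (∏ p ∈ S, p) ∣ a then (1 : ℝ) / a else 0 := by
        intro a
        rw [ind_prod h1, ind]
        split_ifs <;> simp
      simp only [this]
      rw [sum_dvd h2 (fun a => (1 : ℝ) / a), Nat.zero_div, prod_div_distrib, prod_const_one,
        ← Nat.cast_prod]
      simp only [Nat.cast_mul, ← one_div_mul_one_div]
      rw [← mul_sum, mul_comm]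
      refine mul_le_mul_of_nonneg_right ((harm _).trans (add_le_add_right ?_ _)) (by positivity)
      rcases Nat.eq_zero_or_pos (Y / ∏ p ∈ S, p) with h | h
      · rw [h]; simpa using Real.log_natCast_nonneg Y
      · exact Real.log_le_log (by exact_mod_cast h) (by exact_mod_cast Nat.div_le_self _ _)
    · rw [← mul_sum]
      refine mul_le_mul_of_nonneg_left ((tail_hi (P := pri 0 y) (j := r + 1)
        (fun p _ => by positivity) fun S hS =>
          ⟨(mem_powersetCard.1 hS).1, (mem_powersetCard.1 hS).2.ge⟩).trans ?_) L0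
      gcongr
  have a3 : |∑ a ∈ Ioc (3 * y ^ r * H) t, ((rg y a - G a) * ψ a) / a| ≤ 1 := by
    refine (abs_sum_le_sum_abs _ _).trans (le_trans (sum_le_sum
      (g := fun a : ℕ => 2 ^ (r + 2) * (e a / a)) fun a _ => ?_)
      ((sum_le_sum_of_subset_of_nonneg (Ioc_subset_Ioc (Nat.zero_le _) htY) fun a _ _ =>
        mul_nonneg (by positivity) (div_nonneg (e0 a) (Nat.cast_nonneg _))).trans ?_))
    · rw [abs_div, abs_mul, Nat.abs_cast, ← mul_div_assoc]
      exact div_le_div_of_nonneg_right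
        ((mul_le_of_le_one_right (abs_nonneg _) (hψ.bd _)).trans (pt a)) (Nat.cast_nonneg _)
    · rw [← mul_sum]
      refine (mul_le_mul_of_nonneg_left a2 (by positivity)).trans ?_
      rw [show (8 : ℝ) ^ (r + 1) = 2 ^ (r + 1) * 4 ^ (r + 1) by rw [← mul_pow]; norm_num,
        pow_succ (2 : ℝ) (r + 1), ← mul_div_assoc, ← mul_div_assoc, div_le_one (by positivity)]
      nlinarith [pow_pos (two_pos : (0 : ℝ) < 2) (r + 1)]
  have e1 : ∑ a ∈ Ioc (3 * y ^ r * H) t, rg y a * ψ a / a =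
      ∑ a ∈ Ioc (3 * y ^ r * H) t, (G a * ψ a) / a +
        ∑ a ∈ Ioc (3 * y ^ r * H) t, ((rg y a - G a) * ψ a) / a := by
    rw [← sum_add_distrib]
    exact sum_congr rfl fun a _ => by ring
  rw [e1]
  linarith [abs_add_le (∑ a ∈ Ioc (3 * y ^ r * H) t, (G a * ψ a) / a)
    (∑ a ∈ Ioc (3 * y ^ r * H) t, ((rg y a - G a) * ψ a) / a)]

open ArithmeticFunction in
theorem conv {ψ : ℕ → ℝ} {H : ℕ} (hψ : Chi ψ H) (y z r : ℕ) (hz : 1 ≤ z) :
    ∑ S ∈ lo (pri y z) r, ∏ p ∈ S, (1 + ψ p) / p ≤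
      ∑ b ∈ Ioc 0 (z ^ r), rg y b / b * ∑ a ∈ Ioc 0 (z ^ r / b), rg y a * ψ a / a := by
  let u : ArithmeticFunction ℝ := ⟨fun n => rg y n / n, by simp⟩
  let w : ArithmeticFunction ℝ := ⟨fun n => rg y n * ψ n / n, by simp⟩
  let c : ArithmeticFunction ℝ := ⟨ψ, hψ.zero⟩
  have cm : IsMultiplicative ((ArithmeticFunction.zeta : ArithmeticFunction ℝ) * c) :=
    isMultiplicative_zeta.natCast.mul ⟨hψ.one, fun _ => hψ.mul _ _⟩
  have cp : ∀ p k, ψ (p ^ k) = ψ p ^ k := fun p k => by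
    induction k with
    | zero => simpa using hψ.one
    | succ k ih => rw [pow_succ, hψ.mul, ih, pow_succ]
  have c0 : ∀ n, 0 ≤ ((ArithmeticFunction.zeta : ArithmeticFunction ℝ) * c) n := by
    intro n
    rcases eq_or_ne n 0 with rfl | hn
    · simp
    rw [cm.multiplicative_factorization _ hn]
    refine prod_nonneg fun p hp => ?_
    beta_reduce
    rw [coe_zeta_mul_apply, Nat.sum_divisors_prime_pow (Nat.prime_of_mem_primeFactors hp)]
    change 0 ≤ ∑ i ∈ range _, ψ (p ^ i)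
    simp only [cp]
    rcases le_or_gt 0 (ψ p) with h | h
    · exact sum_nonneg fun _ _ => pow_nonneg h _
    · refine nonneg_of_mul_nonneg_right ?_ (by linarith : 0 < 1 - ψ p)
      rw [mul_neg_geom_sum, sub_nonneg]
      exact (le_abs_self _).trans (by rw [abs_pow]; exact pow_le_one₀ (abs_nonneg _) (hψ.bd _))
  have uw : ∀ n, (u * w) n =
      rg y n / n * ((ArithmeticFunction.zeta : ArithmeticFunction ℝ) * c) n := by
    intro n
    rw [mul_apply, mul_apply, mul_sum]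
    refine sum_congr rfl fun x hx => ?_
    obtain ⟨h1, h2⟩ := Nat.mem_divisorsAntidiagonal.1 hx
    have h3 : x.1 ≠ 0 := fun e => h2 (by rw [← h1, e, zero_mul])
    rw [natCoe_apply, zeta_apply_ne h3, ← h1, rg_mul]
    change rg y x.1 / x.1 * (rg y x.2 * ψ x.2 / x.2) = _ * (_ * ψ x.2)
    push_cast
    ring
  have key := sum_Ioc_mul_eq_sum_sum u w (z ^ r)
  refine le_trans ?_ key.le
  have pS : ∀ S ∈ lo (pri y z) r, ∀ p ∈ S, (y < p ∧ p ≤ z) ∧ p.Prime :=
    fun S hS p hp => mem_pri.1 ((mem_lo.1 hS).1 hp)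
  have inj : Set.InjOn (fun S : Finset ℕ => ∏ p ∈ S, p) (lo (pri y z) r) := by
    intro S hS T hT e
    rw [← Nat.primeFactors_prod fun p hp => (pS S hS p hp).2,
      ← Nat.primeFactors_prod fun p hp => (pS T hT p hp).2]
    exact congrArg _ e
  refine le_trans (le_of_eq ?_) (sum_le_sum_of_subset_of_nonneg
    (s := (lo (pri y z) r).image fun S => ∏ p ∈ S, p) (fun n hn => ?_) fun n _ _ => by
      rw [uw]
      exact mul_nonneg (div_nonneg (rg_nonneg _ _) (Nat.cast_nonneg _)) (c0 n))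
  · rw [sum_image inj]
    refine sum_congr rfl fun S hS => ?_
    have h1 : rg y (∏ p ∈ S, p) = 1 := if_pos fun p hp hd => by
      obtain ⟨a1, a2⟩ := mem_pri.1 hp
      obtain ⟨x, hx, hd'⟩ := (Prime.dvd_finsetProd_iff a2.prime _).1 hd
      have := (Nat.prime_dvd_prime_iff_eq a2 (pS S hS x hx).2).1 hd'
      have := (pS S hS x hx).1
      omega
    rw [uw, h1, cm.map_prod_of_prime S fun p hp => (pS S hS p hp).2, prod_div_distrib,
      Nat.cast_prod, one_div, div_eq_inv_mul]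
    congr 1
    refine prod_congr rfl fun p hp => ?_
    rw [coe_zeta_mul_apply, (pS S hS p hp).2.sum_divisors]
    change _ = ψ p + ψ 1
    rw [hψ.one, add_comm]
  · obtain ⟨S, hS, rfl⟩ := mem_image.1 hn
    exact mem_Ioc.2 ⟨prod_pos fun p hp => (pS S hS p hp).2.pos,
      (prod_le_pow_card _ _ z fun p hp => (pS S hS p hp).1.2).trans
        (Nat.pow_le_pow_right hz (mem_lo.1 hS).2)⟩

theorem exp_le_one_add {x : ℝ} (hx : -1 / 2 ≤ x) : Real.exp (x - 2 * x ^ 2) ≤ 1 + x := by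
  rw [← Real.le_log_iff_exp_le (by linarith)]
  refine le_trans ?_ (Real.one_sub_inv_le_log_of_pos (by linarith))
  have h : 0 < 1 + x := by linarith
  rw [← sub_nonneg]
  have : 1 - (1 + x)⁻¹ - (x - 2 * x ^ 2) = x ^ 2 * (1 + 2 * x) / (1 + x) := by
    field_simp
    ring
  rw [this]
  exact div_nonneg (mul_nonneg (sq_nonneg _) (by linarith)) h.le

theorem big : ∃ C : ℝ, 1 ≤ C ∧ ∀ (ψ : ℕ → ℝ) (H y z r : ℕ) (lam : ℝ), Chi ψ H → 2 ≤ y →
    1 ≤ r → 1 ≤ H → H ≤ y ^ (8 * r) → ∑ p ∈ pri 0 z, (1 : ℝ) / p ≤ lam →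
    2 * (1 + r * Real.log z) * Real.exp (16 * lam) ≤ 4 ^ (r + 1) →
    Real.exp (∑ p ∈ pri y z, ψ p / p) ≤ C * r ^ 2 := by
  obtain ⟨C, C0, hC⟩ := rg_sum
  obtain ⟨M, M0, hM⟩ := mertens
  refine ⟨Real.exp (M + 16) * (1 + C * (11 * C + 2)), one_le_mul_of_one_le_of_one_le
    (Real.one_le_exp (by linarith)) (le_add_of_nonneg_right (by positivity)), ?_⟩
  intro ψ H y z r lam hψ hy hr hH hHy hl ht
  have r1 : (1 : ℝ) ≤ r := by exact_mod_cast hr
  have rr : (1 : ℝ) ≤ r ^ 2 := one_le_pow₀ r1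
  rcases lt_or_ge z y with hz | hz
  · rw [show pri y z = ∅ by simp [pri, Ioc_eq_empty_of_le hz.le], sum_empty, Real.exp_zero]
    exact one_le_mul_of_one_le_of_one_le (one_le_mul_of_one_le_of_one_le
      (Real.one_le_exp (by linarith)) (le_add_of_nonneg_right (by positivity))) rr
  have ly := log_pos hy
  have lz := log_pos (hy.trans hz)
  have sub : ∀ a b, b ≤ z → ∑ p ∈ pri a b, (1 : ℝ) / p ≤ lam := fun a b hb =>
    (sum_le_sum_of_subset_of_nonneg (fun p hp => mem_pri.2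
      ⟨⟨(mem_pri.1 hp).2.pos, (mem_pri.1 hp).1.2.trans hb⟩, (mem_pri.1 hp).2⟩)
      fun _ _ _ => by positivity).trans hl
  have l0 : 0 ≤ lam := (sum_nonneg fun _ _ => by positivity).trans hl
  have lY : Real.log (z ^ r : ℕ) = r * Real.log z := by rw [Nat.cast_pow, Real.log_pow]
  have yY : y ≤ z ^ r := hz.trans (Nat.le_self_pow (by omega) z)
  have yt : y ≤ 3 * y ^ r * H := by
    have := Nat.le_self_pow (n := r) (by omega) y
    nlinarith
  have lt : Real.log (3 * y ^ r * H : ℕ) / Real.log y ≤ 11 * r := by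
    rw [div_le_iff₀ ly]
    have h1 : 3 * y ^ r * H ≤ y ^ (11 * r) := by
      have h2 : 3 ≤ y ^ (2 * r) := le_trans (by norm_num)
        ((Nat.pow_le_pow_left hy 2).trans (Nat.pow_le_pow_right (by omega) (by omega)))
      calc 3 * y ^ r * H ≤ y ^ (2 * r) * y ^ r * y ^ (8 * r) := by gcongr
        _ = _ := by rw [← pow_add, ← pow_add]; congr 1; ring
    refine (Real.log_le_log (by exact_mod_cast (by omega : 0 < 3 * y ^ r * H))
      (Nat.cast_le.2 h1)).trans (le_of_eq ?_)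
    rw [Nat.cast_pow, Real.log_pow]
    push_cast
    ring
  have R : ∀ t ≤ z ^ r, ∑ a ∈ Ioc 0 t, rg y a * ψ a / a ≤ (11 * C + 2) * r := by
    have hd : ∀ t ≤ 3 * y ^ r * H, ∑ a ∈ Ioc 0 t, rg y a * ψ a / a ≤ C * (11 * r) :=
      fun t ht => (sum_le_sum fun a _ => div_le_div_of_nonneg_right (mul_le_of_le_one_right
        (rg_nonneg _ _) ((le_abs_self _).trans (hψ.bd a))) (Nat.cast_nonneg _)).trans
        ((hC y _ t hy yt ht).trans (mul_le_mul_of_nonneg_left lt C0))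
    intro t h
    rcases le_or_gt t (3 * y ^ r * H) with h1 | h1
    · nlinarith [hd t h1]
    · rw [← sum_Ioc_consecutive _ (Nat.zero_le _) h1.le]
      have := (abs_le.1 (tail_R (r := r) hψ (by omega) hH (sub 0 y hz) (by
        rw [lY]
        refine le_trans ?_ ht
        gcongr
        norm_num) h)).2
      nlinarith [hd _ le_rfl]
  have s1 : ∑ S ∈ lo (pri y z) r, ∏ p ∈ S, (1 + ψ p) / p ≤
      C * (r * Real.log z / Real.log y) * ((11 * C + 2) * r) := by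
    refine (conv hψ y z r (by omega)).trans ((sum_le_sum fun b _ => mul_le_mul_of_nonneg_left
      (R _ (Nat.div_le_self _ _)) (div_nonneg (rg_nonneg _ _) (Nat.cast_nonneg _))).trans ?_)
    rw [← sum_mul, ← lY]
    exact mul_le_mul_of_nonneg_right (hC y _ _ hy yY le_rfl) (by positivity)
  have x0 : ∀ p : ℕ, 0 ≤ (1 + ψ p) / p ∧ (1 + ψ p) / p ≤ 2 * (1 / p) := fun p =>
    ⟨div_nonneg (by linarith [(abs_le.1 (hψ.bd p)).1]) (Nat.cast_nonneg _), by
      rw [mul_one_div]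
      exact div_le_div_of_nonneg_right (by linarith [(abs_le.1 (hψ.bd p)).2]) (Nat.cast_nonneg _)⟩
  have s2 := (abs_le.1 (prod_lo (P := pri y z) (x := fun p => (1 + ψ p) / p)
    (y := fun p => 2 * (1 / p)) (fun p _ => by rw [abs_of_nonneg (x0 p).1]; exact (x0 p).2) r)).2
  have s3 : Real.exp (8 * ∑ p ∈ pri y z, 2 * ((1 : ℝ) / p)) / 8 ^ (r + 1) ≤ 1 := by
    rw [div_le_one (by positivity), ← mul_sum]
    have h1 : Real.exp (8 * (2 * ∑ p ∈ pri y z, (1 : ℝ) / p)) ≤ Real.exp (16 * lam) :=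
      Real.exp_le_exp.2 (by linarith [sub y z le_rfl])
    have h2 : (4 : ℝ) ^ (r + 1) ≤ 8 ^ (r + 1) := by gcongr; norm_num
    have h3 : 0 ≤ r * Real.log z := by positivity
    nlinarith [Real.exp_pos (16 * lam)]
  have s4 : Real.exp (∑ p ∈ pri y z, ((1 + ψ p) / p - 2 * ((1 + ψ p) / p) ^ 2)) ≤
      ∏ p ∈ pri y z, (1 + (1 + ψ p) / p) := by
    rw [Real.exp_sum]
    exact prod_le_prod (fun _ _ => (Real.exp_pos _).le) fun p _ =>
      exp_le_one_add (by linarith [(x0 p).1])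
  have s5 : ∑ p ∈ pri y z, ψ p / p + Real.log (Real.log z / Real.log y) - (M + 16) ≤
      ∑ p ∈ pri y z, ((1 + ψ p) / p - 2 * ((1 + ψ p) / p) ^ 2) := by
    have h1 : ∑ p ∈ pri y z, (ψ p / p + 1 / p - 8 * (1 / (p : ℝ) ^ 2)) ≤
        ∑ p ∈ pri y z, ((1 + ψ p) / p - 2 * ((1 + ψ p) / p) ^ 2) := sum_le_sum fun p _ => by
      have := pow_le_pow_left₀ (x0 p).1 (x0 p).2 2
      rw [mul_pow, one_div_pow] at this
      rw [add_div] at this ⊢
      linarith
    rw [sum_sub_distrib, sum_add_distrib, ← mul_sum] at h1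
    linarith [(abs_le.1 (hM y z hy hz)).1, sum_sq_le y z]
  have q1 : 1 ≤ Real.log z / Real.log y := (one_le_div ly).2
    (Real.log_le_log (by positivity) (by exact_mod_cast hz))
  have s6 := (Real.exp_le_exp.2 s5).trans s4
  rw [Real.exp_sub, Real.exp_add, Real.exp_log (by linarith), div_le_iff₀ (Real.exp_pos _)] at s6
  refine le_of_mul_le_mul_right (s6.trans ?_) (by linarith : 0 < Real.log z / Real.log y)
  rw [mul_comm, mul_assoc, mul_assoc]
  refine mul_le_mul_of_nonneg_left ?_ (Real.exp_pos _).le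
  rw [mul_div_assoc] at s1
  have := mul_le_mul rr q1 zero_le_one (by positivity)
  nlinarith

end Pool.Agent.MP_110442_nt.Cnt

end MrgPart2

-- ======== part 3: formerly Pool.Agent.MP_110442_nt.Cnt.Exc
section MrgPart3

/-! Jacobi characters and the exceptional moduli. -/

set_option autoImplicit false

namespace Pool.Agent.MP_110442_nt.Cnt

open Finset Function
open Pool.Agent.MP_a43263_nt.R2 (pri)
open Pool.Agent.MP_a43263_nt.R2.Mer (mem_pri sum_sq_le log_pos)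

/-- The Jacobi symbol as a function of the odd lower entry. -/
noncomputable def jj (c : ℤ) (a : ℕ) : ℝ := if a % 2 = 1 then (jacobiSym c a : ℝ) else 0

theorem jj_bd (c : ℤ) (a : ℕ) : |jj c a| ≤ 1 := by
  unfold jj
  split_ifs
  · rcases jacobiSym.trichotomy c a with h | h | h <;> simp [h]
  · simp

theorem jj_mul (c d : ℤ) (a : ℕ) : jj (c * d) a = jj c a * jj d a := by
  unfold jj
  split_ifs <;> simp [jacobiSym.mul_left]

theorem jj_chi {c : ℤ} {H : ℕ} (h2 : H % 2 = 0)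
    (h : ∀ a, a % 2 = 1 → jacobiSym c (a + H) = -jacobiSym c a) : Chi (jj c) H where
  zero := by simp [jj]
  one := by simp [jj]
  mul a b := by
    unfold jj
    rw [ite_zero_mul_ite_zero]
    refine if_ctx_congr (by simp only [← Nat.odd_iff, Nat.odd_mul]) (fun h => ?_) fun _ => rfl
    rw [jacobiSym.mul_right' c (by omega) (by omega), Int.cast_mul]
  bd := jj_bd c
  anti a := by
    unfold jj
    by_cases ha : a % 2 = 1
    · rw [if_pos ha, if_pos (by omega), h a ha, Int.cast_neg]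
    · rw [if_neg ha, if_neg (by omega), neg_zero]

theorem chi_four : Chi (jj (-1)) 2 := jj_chi rfl fun a ha => by
  rw [jacobiSym.at_neg_one (Nat.odd_iff.2 ha), jacobiSym.at_neg_one (Nat.odd_iff.2 (by omega)),
    ZMod.χ₄_nat_eq_if_mod_four, ZMod.χ₄_nat_eq_if_mod_four]
  split_ifs <;> omega

theorem chi_two {e : ℤ} (he : e.natAbs % 2 = 1) : Chi (jj (2 * e)) (4 * e.natAbs) :=
  jj_chi (by omega) fun a ha => by
    have h1 := Nat.odd_iff.2 ha
    have h2 : Odd (a + 4 * e.natAbs) := Nat.odd_iff.2 (by omega)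
    rw [jacobiSym.mul_left, jacobiSym.mul_left, jacobiSym.mod_right e h2, Nat.add_mod_right,
      ← jacobiSym.mod_right e h1, ← neg_mul, jacobiSym.at_two h1, jacobiSym.at_two h2,
      ZMod.χ₈_nat_eq_if_mod_eight, ZMod.χ₈_nat_eq_if_mod_eight]
    congr 1
    split_ifs <;> omega

theorem jj_four {p : ℕ} (h : p % 2 = 1) : jj (-1) p = if p % 4 = 1 then 1 else -1 := by
  rw [jj, if_pos h, jacobiSym.at_neg_one (Nat.odd_iff.2 h), ZMod.χ₄_nat_eq_if_mod_four,
    if_neg (by omega)]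
  split_ifs <;> simp

theorem jj_sum {p : ℕ} (hp : p.Prime) (h2 : 2 < p) (c : ℤ) :
    ∑ k ∈ range p, jj (c * k) p = 0 := by
  have := Fact.mk hp
  simp only [jj_mul]
  rw [← mul_sum]
  refine mul_eq_zero_of_right _ ?_
  simp only [jj, if_pos (hp.eq_two_or_odd.resolve_left h2.ne')]
  have h := quadraticChar_sum_zero (F := ZMod p) (by rw [ZMod.ringChar_zmod_n]; omega)
  rw [← Int.cast_sum, ← Int.cast_zero, ← h]
  congr 1
  refine sum_nbij' (fun k => (k : ZMod p)) (fun a => a.val) (fun _ _ => mem_univ _)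
    (fun a _ => mem_range.2 (ZMod.val_lt a)) (fun k hk => ZMod.val_cast_of_lt (mem_range.1 hk))
    (fun a _ => ZMod.natCast_zmod_val a) fun k _ => ?_
  rw [← jacobiSym.legendreSym.to_jacobiSym, legendreSym, Int.cast_natCast]

theorem markov {P : Finset ℕ} {q : ℕ → ℕ} {Q z r : ℕ} {φ : ℕ → ℕ → ℝ} (H : Per P q Q φ)
    (hQ : 1 ≤ Q) (hz : 1 ≤ z) (hP : P.card ≤ z) (hm : ∀ p ∈ P, mean (φ p) (q p) = 0)
    {x : ℕ → ℝ} (hx : ∀ p ∈ P, ∀ l, |φ p l| ≤ x p) (hx2 : ∀ p ∈ P, x p ≤ 1 / 2) {s T : ℝ}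
    (hs : ∑ p ∈ P, x p ^ 2 ≤ s) (ht : Real.exp (8 * ∑ p ∈ P, x p) ≤ 8 ^ (r + 1)) (N a : ℕ)
    (E : Finset ℕ) (hE : ∀ i ∈ E, i < N ∧ T ≤ ∑ p ∈ P, φ p (a + i)) :
    E.card * Real.exp (T - 2 * s) ≤ 2 * N + 6 * ((z : ℝ) * Q) ^ r := by
  have lb : ∀ p ∈ P, ∀ l, -1 / 2 ≤ φ p l := fun p hp l => by
    linarith [(abs_le.1 (hx p hp l)).1, hx2 p hp]
  have s1 : E.card * Real.exp (T - 2 * s) ≤ ∑ i ∈ range N, ∏ p ∈ P, (1 + φ p (a + i)) := by
    rw [← nsmul_eq_mul]
    refine (card_nsmul_le_sum _ _ _ fun i hi => ?_).trans (sum_le_sum_of_subset_of_nonneg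
      (fun i hi => mem_range.2 (hE i hi).1) fun i _ _ => prod_nonneg fun p hp => by
        linarith [lb p hp (a + i)])
    refine le_trans ?_ (prod_le_prod (fun _ _ => (Real.exp_pos _).le) fun p hp =>
      exp_le_one_add (lb p hp _))
    rw [← Real.exp_sum, Real.exp_le_exp, sum_sub_distrib, ← mul_sum]
    have : ∑ p ∈ P, φ p (a + i) ^ 2 ≤ ∑ p ∈ P, x p ^ 2 := sum_le_sum fun p hp =>
      sq_le_sq' (abs_le.1 (hx p hp _)).1 (abs_le.1 (hx p hp _)).2
    linarith [(hE i hi).2]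
  have s2 : ∀ l, ∏ p ∈ P, (1 + φ p l) ≤ ∑ S ∈ lo P r, ∏ p ∈ S, φ p l + 1 := fun l => by
    have h1 := (abs_le.1 (prod_lo (fun p hp => hx p hp l) r)).2
    have h2 := (div_le_one (by positivity)).2 ht
    linarith
  refine s1.trans ((sum_le_sum fun i _ => s2 _).trans ?_)
  rw [sum_add_distrib, sum_comm]
  have s3 : ∑ S ∈ lo P r, ∑ i ∈ range N, ∏ p ∈ S, φ p (a + i) ≤
      ∑ S ∈ lo P r, ((if ∅ = S then (N : ℝ) else 0) + 2 * (Q : ℝ) ^ r) := by
    refine sum_le_sum fun S hS => ?_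
    have h1 := (abs_le.1 (kub H hQ (mem_lo.1 hS).1 (mem_lo.1 hS).2 N a)).2
    split_ifs with h
    · subst h
      simp
    · obtain ⟨p, hp⟩ := nonempty_iff_ne_empty.2 (Ne.symm h)
      rw [prod_eq_zero hp (hm p ((mem_lo.1 hS).1 hp))] at h1
      linarith
  rw [sum_add_distrib, sum_ite_eq, if_pos (by simp [mem_lo]), sum_const, nsmul_eq_mul] at s3
  have s4 := mul_le_mul_of_nonneg_right (cnt_lo (j := r) hz hP fun S hS => mem_lo.1 hS)
    (by positivity : (0 : ℝ) ≤ 2 * (Q : ℝ) ^ r)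
  rw [sum_const, card_range, nsmul_eq_mul, mul_pow]
  linarith

/-- The cut between middle and large primes for the modulus `k`. -/
def yy (r k : ℕ) : ℕ := 2 ^ (Nat.log 2 k / (4 * r) + 1)

/-- The character sum over the middle primes. -/
noncomputable def mid (c : ℤ) (q r z k : ℕ) : ℝ :=
  ∑ p ∈ pri (2 * q) (min (yy r k) z), jj (c * k) p / p

open Classical in
theorem bad_sum (c : ℤ) {q r z : ℕ} (hq : 1 ≤ q) (hl : ∑ p ∈ pri 0 z, (1 : ℝ) / p ≤ 2 * q)
    (ht : Real.exp (16 * q ^ 2) ≤ 8 ^ (r + 1)) (X : ℕ) :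
    ∑ k ∈ (Ioc 0 X).filter (fun k => 6 < mid c q r z k), (1 : ℝ) / k ≤
      (Nat.log 2 X + 1) * (8 * Real.exp (-(4 * q))) := by
  have q0 : (0 : ℝ) < q := by exact_mod_cast hq
  rw [← sum_fiberwise_of_maps_to (t := range (Nat.log 2 X + 1)) (g := Nat.log 2) fun k hk =>
    mem_range.2 (Nat.lt_succ_of_le (Nat.log_mono_right (mem_Ioc.1 (mem_filter.1 hk).1).2))]
  refine (sum_le_card_nsmul _ _ (8 * Real.exp (-(4 * q))) fun j _ => ?_).trans
    (le_of_eq (by simp))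
  set A := ((Ioc 0 X).filter fun k => 6 < mid c q r z k).filter fun k => Nat.log 2 k = j with hA
  have mA : ∀ k ∈ A, 2 ^ j ≤ k ∧ k < 2 ^ j + 2 ^ j ∧
      6 < ∑ p ∈ pri (2 * q) (min (2 ^ (j / (4 * r) + 1)) z), jj (c * k) p / p := by
    intro k hk
    obtain ⟨h0, rfl⟩ := mem_filter.1 hk
    obtain ⟨h1, h2⟩ := mem_filter.1 h0
    refine ⟨Nat.pow_log_le_self 2 (mem_Ioc.1 h1).1.ne', ?_, h2⟩
    have := Nat.lt_pow_succ_log_self one_lt_two k
    rw [pow_succ] at this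
    omega
  rcases Nat.eq_zero_or_pos (j / (4 * r)) with h0 | h0
  · rw [sum_eq_zero fun k hk => ?_]
    · positivity
    · have := (mA k hk).2.2
      rw [h0, show pri (2 * q) (min (2 ^ (0 + 1)) z) = ∅ by
        simp [pri, Ioc_eq_empty_of_le (show min 2 z ≤ 2 * q by omega)], sum_empty] at this
      norm_num at this
  set y := 2 ^ (j / (4 * r) + 1) with hy
  set P := pri (2 * q) (min y z) with hP
  have y1 : 1 ≤ y := Nat.one_le_two_pow
  have mP : ∀ p ∈ P, 2 * q < p ∧ p ≤ y ∧ p ≤ z ∧ p.Prime := fun p hp => by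
    have := mem_pri.1 hp
    exact ⟨this.1.1, by omega, by omega, this.2⟩
  have hx : ∀ p ∈ P, ∀ l : ℕ, |q * (jj (c * l) p / p)| ≤ q * (1 / p) := fun p _ l => by
    rw [abs_mul, abs_div, Nat.abs_cast, Nat.abs_cast]
    gcongr
    exact jj_bd _ _
  have hx2 : ∀ p ∈ P, (q : ℝ) * (1 / p) ≤ 1 / 2 := fun p hp => by
    have : (2 * q : ℝ) < p := by exact_mod_cast (mP p hp).1
    rw [mul_one_div, div_le_div_iff₀ (by linarith) two_pos]
    linarith
  have key := markov (P := P) (q := id) (Q := y) (z := y) (r := r)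
    (φ := fun p l => q * (jj (c * l) p / p)) (x := fun p => q * (1 / p)) (s := q) (T := 6 * q)
    ⟨fun p hp => (mP p hp).2.2.2.ne_zero, fun p hp => (mP p hp).2.1,
      fun p hp p' hp' e => (Nat.coprime_primes (mP p hp).2.2.2 (mP p' hp').2.2.2).2 e,
      fun p _ l => by
        simp only [jj, id]
        rw [jacobiSym.mod_left' (a₂ := c * l) (by push_cast; rw [mul_add, Int.add_mul_emod_self_right])],
      fun p hp l => by linarith [hx p hp l, hx2 p hp]⟩ y1 y1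
    ((card_le_card (t := pri 0 y) fun p hp =>
      mem_pri.2 ⟨⟨(mP p hp).2.2.2.pos, (mP p hp).2.1⟩, (mP p hp).2.2.2⟩).trans (card_pri y))
    (fun p hp => by
      have := (mP p hp).1
      simp only [mean, id]
      rw [← mul_sum, ← sum_div, jj_sum (mP p hp).2.2.2 (by omega)]
      simp) hx hx2
    (by
      simp only [mul_pow, one_div, inv_pow]
      rw [← mul_sum]
      have h1 := (sum_le_sum_of_subset_of_nonneg (s := P) (fun p hp => mem_Ioo.2
        ⟨(mP p hp).1, Nat.lt_succ_of_le (mP p hp).2.1⟩) fun _ _ _ => by positivity).trans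
        (sum_Ioo_inv_sq_le (α := ℝ) (2 * q) (y + 1))
      refine (mul_le_mul_of_nonneg_left h1 (by positivity)).trans ?_
      rw [← mul_div_assoc, div_le_iff₀ (by positivity)]
      push_cast
      nlinarith)
    (by
      refine le_trans (Real.exp_le_exp.2 ?_) ht
      rw [← mul_sum]
      have h1 := (sum_le_sum_of_subset_of_nonneg (s := P) (fun p hp => mem_pri.2
        ⟨⟨(mP p hp).2.2.2.pos, (mP p hp).2.2.1⟩, (mP p hp).2.2.2⟩)
        fun _ _ _ => by positivity).trans hl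
      nlinarith)
    (2 ^ j) (2 ^ j) (A.image fun k => k - 2 ^ j) (by
      intro i hi
      obtain ⟨k, hk, rfl⟩ := mem_image.1 hi
      obtain ⟨h1, h2, h3⟩ := mA k hk
      refine ⟨by omega, ?_⟩
      rw [Nat.add_sub_cancel' h1, ← mul_sum]
      nlinarith)
  rw [card_image_of_injOn fun k hk l hl e => by
    have := (mA k hk).1
    have := (mA l hl).1
    omega] at key
  have h1 : ((y : ℝ) * y) ^ r ≤ (2 ^ j : ℕ) := by
    have : (y * y) ^ r ≤ 2 ^ j := by
      rw [hy, ← pow_add, ← pow_mul]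
      refine Nat.pow_le_pow_right two_pos (le_trans ?_ (Nat.div_mul_le_self j (4 * r)))
      nlinarith
    exact_mod_cast this
  have j0 : (0 : ℝ) < (2 ^ j : ℕ) := by positivity
  refine (sum_le_card_nsmul _ _ (1 / ((2 ^ j : ℕ) : ℝ)) fun k hk =>
    one_div_le_one_div_of_le j0 (Nat.cast_le.2 (mA k hk).1)).trans ?_
  rw [nsmul_eq_mul, mul_one_div, div_le_iff₀ j0, Real.exp_neg, ← div_eq_mul_inv,
    div_mul_eq_mul_div, le_div_iff₀ (Real.exp_pos _)]
  rw [show 6 * (q : ℝ) - 2 * q = 4 * q by ring] at key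
  linarith

theorem good_sum : ∃ C : ℝ, 1 ≤ C ∧ ∀ (q r z : ℕ), 1 ≤ q → 1 ≤ r →
    ∑ p ∈ pri 0 z, (1 : ℝ) / p ≤ 2 * q →
    2 * (1 + r * Real.log z) * Real.exp (32 * q) ≤ 4 ^ (r + 1) →
    ∑ p ∈ pri 2 z, jj (-1) p / p ≤ Real.log (C * r ^ 2) ∧ ∀ (e : ℤ) (k : ℕ), e.natAbs = 1 →
      k % 2 = 1 → mid (2 * e) q r z k ≤ 6 →
      ∑ p ∈ pri 2 z, jj (2 * e * k) p / p ≤ Real.log (C * r ^ 2) + Real.log (2 * q) + 7 := by
  obtain ⟨C, C1, hC⟩ := big
  refine ⟨C, C1, fun q r z hq hr hl ht => ?_⟩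
  have C0 : 0 < C * (r : ℝ) ^ 2 := by positivity
  rw [show (32 : ℝ) * q = 16 * (2 * q) by ring] at ht
  refine ⟨(Real.le_log_iff_exp_le C0).2 (hC _ 2 2 z r _ chi_four le_rfl hr one_le_two
    (Nat.le_self_pow (by omega) 2) hl ht), fun e k he hk hm => ?_⟩
  have h1 : (e * k).natAbs = k := by rw [Int.natAbs_mul, he, one_mul, Int.natAbs_natCast]
  have h2 := chi_two (e := e * k) (by rw [h1, hk])
  rw [h1, ← mul_assoc] at h2
  have y2 : 2 ≤ yy r k := Nat.le_self_pow (Nat.succ_ne_zero _) 2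
  have h3 := (Real.le_log_iff_exp_le C0).2 (hC _ (4 * k) (yy r k) z r _ h2 y2 hr (by omega) (by
    rw [yy, ← pow_mul]
    have a1 := Nat.lt_pow_succ_log_self one_lt_two k
    have a2 := Nat.lt_mul_div_succ (Nat.log 2 k) (show 0 < 4 * r by omega)
    refine le_trans ?_ (Nat.pow_le_pow_right two_pos
      (show Nat.log 2 k + 1 + 2 ≤ _ by nlinarith [Nat.zero_le (Nat.log 2 k / (4 * r) * r)]))
    rw [pow_add]
    omega) hl ht)
  have h4 : ∑ p ∈ pri 2 z, jj (2 * e * k) p / p =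
      ∑ p ∈ pri 2 (min (yy r k) z), jj (2 * e * k) p / p +
        ∑ p ∈ pri (yy r k) z, jj (2 * e * k) p / p := by
    rw [← sum_union (disjoint_left.2 fun p a b => by
      have := (mem_pri.1 a).1
      have := (mem_pri.1 b).1
      omega)]
    refine sum_congr (Finset.ext fun p => ?_) fun _ _ => rfl
    simp only [mem_union, mem_pri, ← or_and_right]
    exact and_congr_left fun _ => by omega
  have h5 := sum_sdiff (f := fun p : ℕ => jj (2 * e * k) p / p)
    (show pri (2 * q) (min (yy r k) z) ⊆ pri 2 (min (yy r k) z) from fun p hp =>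
      mem_pri.2 ⟨⟨by have := (mem_pri.1 hp).1; omega, (mem_pri.1 hp).1.2⟩, (mem_pri.1 hp).2⟩)
  have h6 : ∑ p ∈ pri 2 (min (yy r k) z) \ pri (2 * q) (min (yy r k) z), jj (2 * e * k) p / p ≤
      1 + Real.log (2 * q : ℕ) := by
    refine (sum_le_sum (g := fun p : ℕ => (1 : ℝ) / p) fun p _ => div_le_div_of_nonneg_right
      ((le_abs_self _).trans (jj_bd _ _)) (Nat.cast_nonneg _)).trans
      ((sum_le_sum_of_subset_of_nonneg (fun p hp => ?_) fun _ _ _ => by positivity).trans (harm _))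
    simp only [mem_sdiff, mem_pri, mem_Ioc] at hp ⊢
    have := hp.2
    simp only [hp.1.2, and_true] at this
    omega
  push_cast at h6
  unfold mid at hm
  linarith

end Pool.Agent.MP_110442_nt.Cnt

end MrgPart3

-- ======== part 4: formerly Pool.Agent.MP_110442_nt.Cnt.Loc
section MrgPart4

/-! Local weights, the counting bound and the arithmetic of solvable integers. -/

set_option autoImplicit false

namespace Pool.Agent.MP_110442_nt.Cnt

open Finset Function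
open Pool.Agent.MP_a43263_nt.R2 (pri)
open Pool.Agent.MP_a43263_nt.R2.Mer (mem_pri sum_sq_le log_pos)

/-- Indicator of divisibility of an integer. -/
noncomputable def dv (d : ℕ) (m : ℤ) : ℝ := if (d : ℤ) ∣ m then 1 else 0

/-- The local weight minus one. -/
noncomputable def hh (α β : ℝ) (p : ℕ) (m : ℤ) : ℝ :=
  (α - 1) * dv p m +
    (β - 1) * (dv p (m + -4) - dv (p ^ 2) (m + -4) + (dv p (m + 4) - dv (p ^ 2) (m + 4)))

/-- Indicator of the support of the local weight. -/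
noncomputable def tt (p : ℕ) (m : ℤ) : ℝ := dv p m + dv p (m + -4) + dv p (m + 4)

/-- Exact divisibility. -/
def ex (p : ℕ) (m : ℤ) : Prop := (p : ℤ) ∣ m ∧ ¬ ((p ^ 2 : ℕ) : ℤ) ∣ m

theorem not_dvd_eight {p : ℕ} (hp : p.Prime) (h2 : 2 < p) : ¬ (p : ℤ) ∣ 8 := fun h => by
  have h1 : p ∣ 2 ^ 3 := by exact_mod_cast h
  have := Nat.le_of_dvd two_pos (hp.dvd_of_dvd_pow h1)
  omega

theorem hh_cases {p : ℕ} (hp : p.Prime) (h2 : 2 < p) (m : ℤ) :
    ((p : ℤ) ∣ m ∧ (∀ α β, hh α β p m = α - 1) ∧ tt p m = 1) ∨ ¬ (p : ℤ) ∣ m ∧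
      (((ex p (m + -4) ∨ ex p (m + 4)) ∧ (∀ α β, hh α β p m = β - 1) ∧ tt p m = 1) ∨
      ((∀ α β, hh α β p m = 0) ∧ (tt p m = 0 ∨ tt p m = 1))) := by
  have n8 := not_dvd_eight hp h2
  have e1 : (p : ℤ) ∣ m → ¬ (p : ℤ) ∣ m + -4 := fun a b => n8 (by
    rw [show (8 : ℤ) = (m - (m + -4)) * 2 by ring]; exact (a.sub b).mul_right _)
  have e2 : (p : ℤ) ∣ m → ¬ (p : ℤ) ∣ m + 4 := fun a b => n8 (by
    rw [show (8 : ℤ) = (m + 4 - m) * 2 by ring]; exact (b.sub a).mul_right _)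
  have e3 : (p : ℤ) ∣ m + -4 → ¬ (p : ℤ) ∣ m + 4 := fun a b => n8 (by
    rw [show (8 : ℤ) = m + 4 - (m + -4) by ring]; exact b.sub a)
  have e4 : ∀ x : ℤ, ¬ (p : ℤ) ∣ x → ¬ ((p ^ 2 : ℕ) : ℤ) ∣ x := fun x a b =>
    a ((Int.natCast_dvd_natCast.2 (dvd_pow_self p two_ne_zero)).trans b)
  unfold hh tt dv ex
  by_cases a : (p : ℤ) ∣ m
  · left
    simp only [if_pos a, if_neg (e1 a), if_neg (e2 a), if_neg (e4 _ (e1 a)), if_neg (e4 _ (e2 a))]
    exact ⟨a, fun _ _ => by ring, by ring⟩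
  refine Or.inr ⟨a, ?_⟩
  by_cases b : (p : ℤ) ∣ m + -4
  · simp only [if_neg a, if_pos b, if_neg (e3 b), if_neg (e4 _ (e3 b))]
    by_cases c : ((p ^ 2 : ℕ) : ℤ) ∣ m + -4
    · simp only [if_pos c]
      exact Or.inr ⟨fun _ _ => by ring, Or.inr (by ring)⟩
    · simp only [if_neg c]
      exact Or.inl ⟨Or.inl ⟨b, c⟩, fun _ _ => by ring, by ring⟩
  simp only [if_neg a, if_neg b, if_neg (e4 _ b)]
  by_cases c : (p : ℤ) ∣ m + 4
  · simp only [if_pos c]
    by_cases d : ((p ^ 2 : ℕ) : ℤ) ∣ m + 4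
    · simp only [if_pos d]
      exact Or.inr ⟨fun _ _ => by ring, Or.inr (by ring)⟩
    · simp only [if_neg d]
      exact Or.inl ⟨Or.inr ⟨c, d⟩, fun _ _ => by ring, by ring⟩
  · simp only [if_neg c, if_neg (e4 _ c)]
    exact Or.inr ⟨fun _ _ => by ring, Or.inl (by ring)⟩

theorem dv_sum {d D k : ℕ} (c : ℤ) (hd : d ∣ D) (h0 : 0 < d) (hk : Nat.Coprime d k) :
    ∑ l ∈ range D, dv d (k * l + c) = D / d := by
  have hc := Nat.isCoprime_iff_coprime.2 hk
  obtain ⟨u, w, e⟩ := id hc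
  have d0 : (d : ℤ) ≠ 0 := by exact_mod_cast h0.ne'
  obtain ⟨l0, hl⟩ := Int.eq_ofNat_of_zero_le (Int.emod_nonneg (-c * w) d0)
  have h1 : (d : ℤ) ∣ k * l0 + c := by
    rw [← hl, Int.emod_def]
    exact ⟨c * u - k * (-c * w / d), by linear_combination (-c) * e⟩
  have h2 : ∀ l : ℕ, (d : ℤ) ∣ k * l + c ↔ l ≡ l0 [MOD d] := fun l => by
    rw [Nat.modEq_iff_dvd]
    refine ⟨fun h => hc.dvd_of_dvd_mul_left ?_, fun h => ?_⟩
    · rw [show (k : ℤ) * (l0 - l) = k * l0 + c - (k * l + c) by ring]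
      exact h1.sub h
    · rw [show (k : ℤ) * l + c = k * l0 + c - k * (l0 - l) by ring]
      exact h1.sub (h.mul_left _)
  simp only [dv, h2]
  rw [sum_boole, ← Nat.count_eq_card_filter_range, Nat.count_modEq_card _ h0,
    Nat.mod_eq_zero_of_dvd hd, if_neg (Nat.not_lt_zero _), add_zero, Nat.cast_div hd
      (by exact_mod_cast h0.ne')]

theorem dv_per {d D : ℕ} (hd : d ∣ D) (k l : ℕ) (c : ℤ) :
    dv d (k * (l + D : ℕ) + c) = dv d (k * l + c) := by
  unfold dv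
  refine if_congr ?_ rfl rfl
  rw [show (k : ℤ) * (l + D : ℕ) + c = k * l + c + k * D by push_cast; ring]
  exact dvd_add_left ((Int.natCast_dvd_natCast.2 hd).mul_left _)

theorem count {P : Finset ℕ} {z k : ℕ} (hz : 1 ≤ z) (hP : P ⊆ pri 2 z) (hk : ∀ p ∈ P, ¬ p ∣ k)
    {α β : ℕ → ℝ} (ha : ∀ p, 0 ≤ α p ∧ α p ≤ 2) (hb : ∀ p, 0 ≤ β p ∧ β p ≤ 2) {W lam : ℝ}
    (W0 : 0 ≤ W) (W1 : W ≤ 1) (hl : ∑ p ∈ pri 0 z, (1 : ℝ) / p ≤ lam) (r N : ℕ) (E : Finset ℕ)
    (hE : ∀ i ∈ E, i < N ∧ 1 ≤ W * ∏ p ∈ P, (1 + hh (α p) (β p) p (k * i))) :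
    (E.card : ℝ) ≤ W * N * Real.exp (∑ p ∈ P, (α p + 2 * β p - 3) / p + 4) +
      3 * N * Real.exp (24 * lam) / 4 ^ (r + 1) + 18 * (2 * z ^ 3 : ℝ) ^ (r + 1) := by
  have mP : ∀ p ∈ P, 2 < p ∧ p ≤ z ∧ p.Prime := fun p hp =>
    ⟨(mem_pri.1 (hP hp)).1.1, (mem_pri.1 (hP hp)).1.2, (mem_pri.1 (hP hp)).2⟩
  have sub : P ⊆ pri 0 z := fun p hp => mem_pri.2 ⟨⟨(mP p hp).2.2.pos, (mP p hp).2.1⟩,
    (mP p hp).2.2⟩
  have t01 : ∀ p ∈ P, ∀ m, tt p m = 0 ∨ tt p m = 1 := fun p hp m => by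
    rcases hh_cases (mP p hp).2.2 (mP p hp).1 m with h | ⟨-, h | h⟩
    exacts [Or.inr h.2.2, Or.inr h.2.2, h.2]
  have ht : ∀ p ∈ P, ∀ m, |hh (α p) (β p) p m| ≤ tt p m := fun p hp m => by
    rcases hh_cases (mP p hp).2.2 (mP p hp).1 m with h | ⟨-, h | h⟩
    · rw [h.2.1, h.2.2, abs_le]; constructor <;> linarith [ha p]
    · rw [h.2.1, h.2.2, abs_le]; constructor <;> linarith [hb p]
    · rw [h.1, abs_zero]; rcases h.2 with h | h <;> simp [h]
  have t1 : ∀ p ∈ P, ∀ m, |tt p m| ≤ 1 := fun p hp m => by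
    rcases t01 p hp m with h | h <;> simp [h]
  have d1 : ∀ p : ℕ, p ∣ p ^ 2 := fun p => dvd_pow_self p two_ne_zero
  have per : ∀ φ : ℕ → ℕ → ℝ, (∀ p ∈ P, Periodic (φ p) (p ^ 2)) → (∀ p ∈ P, ∀ l, |φ p l| ≤ 1) →
      Per P (fun p => p ^ 2) (z ^ 2) φ := fun φ h1 h2 =>
    ⟨fun p hp => pow_ne_zero _ (mP p hp).2.2.ne_zero,
      fun p hp => Nat.pow_le_pow_left (mP p hp).2.1 2, fun p hp p' hp' e =>
        Nat.Coprime.pow _ _ ((Nat.coprime_primes (mP p hp).2.2 (mP p' hp').2.2).2 e), h1, h2⟩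
  have z0 : ∀ (p : ℕ) (m : ℤ), dv p m = dv p (m + 0) := fun p m => by rw [add_zero]
  have s1 : ∀ p ∈ P, ∀ c : ℤ, ∑ l ∈ range (p ^ 2), dv p (k * l + c) = p ∧
      ∑ l ∈ range (p ^ 2), dv (p ^ 2) (k * l + c) = 1 := fun p hp c => by
    have h1 := ((mP p hp).2.2.coprime_iff_not_dvd).2 (hk p hp)
    have h2 := (mP p hp).2.2.pos
    rw [dv_sum c (d1 p) h2 h1, dv_sum c dvd_rfl (by positivity) (h1.pow_left 2)]
    push_cast
    constructor <;> field_simp
  have m1 : ∀ p ∈ P, mean (fun l => tt p (k * l)) (p ^ 2) = 3 * (1 / p) := fun p hp => by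
    have h2 := (mP p hp).2.2.pos
    simp only [mean, tt, z0 p (k * _), sum_add_distrib, (s1 p hp _).1]
    push_cast
    field_simp
    ring
  have m2 : ∀ p ∈ P, mean (fun l => hh (α p) (β p) p (k * l)) (p ^ 2) =
      (α p + 2 * β p - 3) / p - 2 * (β p - 1) * (1 / (p : ℝ) ^ 2) := fun p hp => by
    have h2 := (mP p hp).2.2.pos
    simp only [mean, hh, z0 p (k * _), sum_add_distrib, sum_sub_distrib, ← mul_sum,
      (s1 p hp _).1, (s1 p hp _).2]
    push_cast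
    field_simp
    ring
  have key := sieve (P := P) (q := fun p => p ^ 2) (Q := z ^ 2) (z := z)
    (h := fun p l => hh (α p) (β p) p (k * l)) (t := fun p l => tt p (k * l))
    (per _ (fun p _ l => by
      simp only [hh, z0 p (k * _), dv_per (d1 p), dv_per (dvd_refl (p ^ 2))])
      fun p hp l => (ht p hp _).trans ((le_abs_self _).trans (t1 p hp _)))
    (per _ (fun p _ l => by simp only [tt, z0 p (k * _), dv_per (d1 p)]) fun p hp l => t1 p hp _)
    (Nat.one_le_pow _ _ hz) hz ((card_le_card sub).trans (card_pri z)) (fun p hp l => t01 p hp _)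
    (fun p hp l => ht p hp _) W0 W1 (lam := 3 * lam) (by
      rw [sum_congr rfl m1, ← mul_sum]
      linarith [sum_le_sum_of_subset_of_nonneg (f := fun p : ℕ => (1 : ℝ) / p) sub
        fun _ _ _ => by positivity]) r N 0 E (by simpa only [zero_add] using hE)
  rw [show 8 * (3 * lam) = 24 * lam by ring,
    show (2 * z * (z ^ 2 : ℕ) : ℝ) = 2 * z ^ 3 by push_cast; ring] at key
  refine key.trans (add_le_add_left (add_le_add_left (mul_le_mul_of_nonneg_left
    ((prod_le_exp fun p hp => ?_).trans (Real.exp_le_exp.2 ?_)) (by positivity)) _) _)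
  · have h3 : (3 : ℝ) ≤ p := by exact_mod_cast (mP p hp).1
    have : 1 + ((α p + 2 * β p - 3) / p - 2 * (β p - 1) * (1 / (p : ℝ) ^ 2)) =
        (p * (p - 3) + α p * p + 2 * β p * (p - 1) + 2) / p ^ 2 := by
      field_simp
      ring
    rw [m2 p hp, this]
    have := (ha p).1
    have := (hb p).1
    have : (0 : ℝ) ≤ p - 3 := by linarith
    have : (0 : ℝ) ≤ p - 1 := by linarith
    positivity
  · refine (sum_le_sum (g := fun p : ℕ => (α p + 2 * β p - 3) / p + 2 * (1 / (p : ℝ) ^ 2))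
      fun p hp => ?_).trans ?_
    · rw [m2 p hp]
      nlinarith [mul_nonneg (hb p).1 (by positivity : (0 : ℝ) ≤ 1 / (p : ℝ) ^ 2)]
    · rw [sum_add_distrib, ← mul_sum]
      linarith [sum_le_sum_of_subset_of_nonneg (f := fun p : ℕ => (1 : ℝ) / (p : ℝ) ^ 2) hP
        fun _ _ _ => by positivity, sum_sq_le 2 z]

/-- Solvable integers. -/
def Sol (n : ℕ) : Prop := ∃ a b c d : ℚ, 0 < a ∧ 0 < b ∧ 0 < c ∧ 0 < d ∧
  (n : ℚ) = (a + b) * (c + d) ∧ a * b * c * d = 1

theorem two_sq {p : ℕ} (hp : p.Prime) {m : ℤ} (x y : ℤ) (e : m = x ^ 2 + y ^ 2) (h : ex p m) :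
    p % 4 ≠ 3 := by
  have := Fact.mk hp
  subst e
  by_cases hx : (x : ZMod p) = 0
  · have h1 := (ZMod.intCast_zmod_eq_zero_iff_dvd x p).1 hx
    have h2 := (Nat.prime_iff_prime_int.1 hp).dvd_of_dvd_pow
      ((dvd_add_right (dvd_pow h1 two_ne_zero)).1 h.1)
    exact absurd (by
      push_cast
      exact (pow_dvd_pow_of_dvd h1 2).add (pow_dvd_pow_of_dvd h2 2)) h.2
  · refine ZMod.mod_four_ne_three_of_sq_eq_neg_sq (y := (y : ZMod p)) hx ?_
    have := (ZMod.intCast_zmod_eq_zero_iff_dvd _ p).2 h.1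
    push_cast at this
    linear_combination this

theorem sol_all {n p : ℕ} (h : Sol n) (hp : p.Prime) (h2 : 2 < p)
    (hd : (p : ℤ) ∣ n ∨ ex p (n + -4) ∨ ex p (n + 4)) : jj (-1) p = 1 := by
  obtain ⟨a, b, c, d, ha, hb, hc, hd', h1, h3⟩ := h
  obtain ⟨r1, L, x, y, z, w, -, r2⟩ := Results.MP_110442_nt.Quartic.core n a b c d ha hb hc hd' h1 h3
  have o := hp.eq_two_or_odd.resolve_left h2.ne'
  have : p % 4 ≠ 3 := by
    rcases hd with hd | hd | hd
    · exact r1 p hp (Int.natCast_dvd_natCast.1 hd)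
    · rcases r2 with r | r
      · exact two_sq hp x (4 * y) (by linear_combination r.2.2.2.1) hd
      · exact two_sq hp x y (by linear_combination r.2.2.2.1) hd
    · rcases r2 with r | r
      · exact two_sq hp z (4 * w) (by linear_combination r.2.2.2.2.1) hd
      · exact two_sq hp (2 * z + 8 * w) (2 * z - 8 * w) (by linear_combination r.2.2.2.2.1) hd
  rw [jj_four o, if_pos (by omega)]

theorem ex_val {p m : ℕ} (hp : p.Prime) (h : ex p m) : Odd (padicValNat p m) := by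
  have := Fact.mk hp
  have h1 := Int.natCast_dvd_natCast.1 h.1
  have h2 := mt Int.natCast_dvd_natCast.2 h.2
  have h0 : m ≠ 0 := fun e => h2 (e ▸ dvd_zero _)
  rw [padicValNat_dvd_iff_le h0] at h2
  have := one_le_padicValNat_of_dvd h0 h1
  rw [show padicValNat p m = 1 by omega]
  exact odd_one

theorem jj_congr {a b : ℤ} {p : ℕ} (h : (p : ℤ) ∣ b - a) : jj a p = jj b p := by
  unfold jj
  rw [jacobiSym.mod_left' (Int.modEq_iff_dvd.2 h)]

theorem sol_odd {n : ℕ} (h : Sol n) (hn : n % 2 = 1) : ∃ k l : ℕ, n = k * l ∧ k ≤ l ∧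
    ∀ p : ℕ, p.Prime → 2 < p → ex p (n + -4) ∨ ex p (n + 4) → jj (2 * k) p = 1 := by
  obtain ⟨a, b, c, d, ha, hb, hc, hd, h1, h3⟩ := id h
  obtain ⟨-, L, x, y, z, w, r1, r2⟩ := Results.MP_110442_nt.Quartic.core n a b c d ha hb hc hd h1 h3
  obtain ⟨n8, L2, Ld, -⟩ := r2.resolve_right fun r => by omega
  obtain ⟨k, rfl⟩ : ∃ k, L = 2 * k := ⟨L / 2, by omega⟩
  obtain ⟨l, hl⟩ := Nat.dvd_of_mul_dvd_mul_left two_pos Ld
  have key : ∀ p : ℕ, p.Prime → 2 < p → ex p (n + -4) ∨ ex p (n + 4) →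
      jj (2 * k) p = 1 ∧ jj (2 * l) p = 1 := by
    intro p hp h2 he
    have := Fact.mk hp
    have o := hp.eq_two_or_odd.resolve_left h2.ne'
    have j4 : jj 4 p = 1 := by
      rw [jj, if_pos o, jacobiSym.at_four (Nat.odd_iff.2 o), Int.cast_one]
    have e1 : jj (2 * k) p * jj (2 * l) p = 1 := by
      rw [← jj_mul]
      rcases he with e | e
      · rw [← jj_congr (a := 4 * 4) (by
          rw [show (2 * k * (2 * l) - 4 * 4 : ℤ) = 4 * (n + -4) by rw [hl]; push_cast; ring]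
          exact e.1.mul_left _), jj_mul, j4, one_mul]
      · rw [← jj_congr (a := -1 * (4 * 4)) (by
          rw [show (2 * k * (2 * l) - -1 * (4 * 4) : ℤ) = 4 * (n + 4) by rw [hl]; push_cast; ring]
          exact e.1.mul_left _), jj_mul, jj_mul, j4, sol_all h hp h2 (Or.inr (Or.inr e))]
        norm_num
    have e2 := r1 p hp h2.ne' (he.imp
      (fun e => ex_val hp (by rwa [Nat.cast_sub (by omega), sub_eq_add_neg]))
      fun e => ex_val hp (by rwa [Nat.cast_add]))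
    have e3 : jj (2 * k) p = 1 := by
      rw [jj, if_pos o, ← jacobiSym.legendreSym.to_jacobiSym] at e1 ⊢
      have e4 : ((2 * k : ℕ) : ZMod p) ≠ 0 := fun e => by
        rw [(legendreSym.eq_zero_iff p _).2 (by exact_mod_cast e)] at e1
        simp at e1
      exact_mod_cast (legendreSym.eq_one_iff' p e4).2 e2
    exact ⟨e3, by rwa [e3, one_mul] at e1⟩
  rcases le_total k l with e | e
  · exact ⟨k, l, hl, e, fun p a b c => (key p a b c).1⟩
  · exact ⟨l, k, hl.trans (mul_comm _ _), e, fun p a b c => (key p a b c).2⟩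

end Pool.Agent.MP_110442_nt.Cnt

end MrgPart4

-- ======== part 5: formerly Pool.Agent.MP_110442_nt.Cnt.Par
section MrgPart5

/-! Choice of the parameters and the sum over the smaller factor. -/

set_option autoImplicit false

namespace Pool.Agent.MP_110442_nt.Cnt

open Finset Function
open Pool.Agent.MP_a43263_nt.R2 (pri)
open Pool.Agent.MP_a43263_nt.R2.Mer (mem_pri sum_sq_le log_pos)

theorem exp_le_four (n : ℕ) : Real.exp n ≤ 4 ^ n := by
  rw [← Real.exp_one_pow]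
  exact pow_le_pow_left₀ (Real.exp_pos _).le (Real.exp_one_lt_d9.le.trans (by norm_num)) n

theorem two_le_exp (n : ℕ) : 2 ^ n ≤ Real.exp n := by
  rw [← Real.exp_one_pow]
  exact pow_le_pow_left₀ two_pos.le (by linarith [Real.add_one_le_exp 1]) n

theorem sq_le_pow {n : ℕ} (h : 20 ≤ n) : 1616 * (n + 1) ^ 2 ≤ 2 ^ n := by
  induction n, h using Nat.le_induction with
  | base => norm_num
  | succ n h ih => rw [pow_succ 2 n]; nlinarith

theorem params {M : ℝ} (hM : ∀ a b : ℕ, 2 ≤ a → a ≤ b →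
    |∑ p ∈ pri a b, (1 : ℝ) / p - Real.log (Real.log b / Real.log a)| ≤ M) :
    ∃ X0 : ℕ, ∀ X : ℕ, X0 ≤ X → ∃ q r z : ℕ, r = 100 * q ^ 2 ∧ 1 ≤ q ∧ 2 ≤ z ∧ z ≤ X ∧
      ∑ p ∈ pri 0 z, (1 : ℝ) / p ≤ 2 * q ∧ (Nat.log 2 X + 1 : ℝ) ≤ Real.exp q ∧
      Real.log X ≤ Real.exp q ∧ 1 ≤ Real.log X ∧ r * Real.log z ≤ Real.exp q ∧
      Real.log X ≤ 64 * r * Real.log z ∧ (q : ℝ) ≤ 4 * Real.log (Real.log X) ∧
      Nat.sqrt X * (2 * z ^ 3 : ℝ) ^ (r + 1) ≤ X * Real.exp (-(3 * q)) := by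
  refine ⟨2 ^ 2 ^ (⌈M⌉₊ + 20), fun X hX => ?_⟩
  have X0 : X ≠ 0 := (lt_of_lt_of_le (by positivity) hX).ne'
  obtain ⟨J, hJ⟩ : ∃ J, J = Nat.log 2 X := ⟨_, rfl⟩
  have a1 : 2 ^ (⌈M⌉₊ + 20) ≤ J := hJ ▸ Nat.le_log_of_pow_le one_lt_two hX
  have a2 : 2 ^ J ≤ X := hJ ▸ Nat.pow_log_le_self 2 X0
  have a3 : X < 2 ^ (J + 1) := hJ ▸ Nat.lt_pow_succ_log_self one_lt_two X
  obtain ⟨n, hn⟩ : ∃ n, n = Nat.log 2 J := ⟨_, rfl⟩
  have b1 : ⌈M⌉₊ + 20 ≤ n := hn ▸ Nat.le_log_of_pow_le one_lt_two a1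
  have b2 : 2 ^ n ≤ J := hn ▸ Nat.pow_log_le_self 2 (lt_of_lt_of_le (by positivity) a1).ne'
  have b3 : J < 2 ^ (n + 1) := hn ▸ Nat.lt_pow_succ_log_self one_lt_two J
  have b4 := (sq_le_pow (show 20 ≤ n by omega)).trans b2
  obtain ⟨r, hr⟩ : ∃ r, r = 100 * (n + 1) ^ 2 := ⟨_, rfl⟩
  have c0 : n + 1 ≤ (n + 1) ^ 2 := Nat.le_self_pow two_ne_zero _
  obtain ⟨g, hg⟩ : ∃ g, g = J / (16 * (r + 1)) := ⟨_, rfl⟩
  have c1 : 1 ≤ g := hg ▸ (Nat.le_div_iff_mul_le (by omega)).2 (by omega)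
  have c2 : g * (16 * (r + 1)) ≤ J := hg ▸ Nat.div_mul_le_self _ _
  have c3 : J < 16 * (r + 1) * (g + 1) := hg ▸ Nat.lt_mul_div_succ J (by omega)
  have c4 : r * g ≤ J := by nlinarith
  have c5 : g ≤ J := by nlinarith
  have c6 : J + 1 ≤ 64 * r * g := by
    have : (r + 1) * (g + 1) ≤ (2 * r) * (2 * g) := Nat.mul_le_mul (by omega) (by omega)
    nlinarith
  have l1 := Real.log_two_gt_d9
  have l2 := Real.log_two_lt_d9
  have lz : Real.log (2 ^ g : ℕ) = g * Real.log 2 := by rw [Nat.cast_pow, Real.log_pow]; rfl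
  have e1 : (J + 1 : ℝ) ≤ Real.exp (n + 1 : ℕ) := le_trans (by exact_mod_cast b3) (two_le_exp _)
  have e2 : Real.log X ≤ (J + 1) * Real.log 2 := by
    have := Real.log_le_log (by positivity) (Nat.cast_le (α := ℝ).2 a3.le)
    rwa [Nat.cast_pow, Real.log_pow, Nat.cast_add_one] at this
  have e3 : J * Real.log 2 ≤ Real.log X := by
    have := Real.log_le_log (by positivity) (Nat.cast_le (α := ℝ).2 a2)
    rwa [Nat.cast_pow, Real.log_pow] at this
  have J0 : (0 : ℝ) ≤ J := Nat.cast_nonneg _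
  have g0 : (0 : ℝ) < g := by exact_mod_cast c1
  have n20 : (20 : ℝ) ≤ n := by exact_mod_cast (show 20 ≤ n by omega)
  have e4 : (2 : ℝ) ^ n / 2 ≤ Real.log X := by
    have : (2 : ℝ) ^ n ≤ J := by exact_mod_cast b2
    nlinarith
  have z2 : 2 ≤ 2 ^ g := Nat.le_self_pow (by omega) 2
  refine ⟨n + 1, r, 2 ^ g, hr, by omega, z2, (Nat.pow_le_pow_right two_pos c5).trans a2, ?_,
    hJ ▸ e1, by nlinarith, ?_, ?_, ?_, ?_, ?_⟩
  · have h1 := (abs_le.1 (hM 2 _ le_rfl z2)).2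
    rw [lz, Nat.cast_ofNat, mul_div_cancel_right₀ _ (by linarith)] at h1
    have h2 : Real.log g ≤ (n + 1 : ℕ) := by
      rw [Real.log_le_iff_le_exp g0]
      have : (g : ℝ) ≤ J := by exact_mod_cast c5
      linarith
    have h3 : M + 20 ≤ n := le_trans (by linarith [Nat.le_ceil M]) (by exact_mod_cast b1 :
      (⌈M⌉₊ + 20 : ℝ) ≤ n)
    have h4 : ∑ p ∈ pri 0 (2 ^ g), (1 : ℝ) / p ≤ ∑ p ∈ insert 2 (pri 2 (2 ^ g)), (1 : ℝ) / p :=
      sum_le_sum_of_subset_of_nonneg (fun p hp => by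
        have := (mem_pri.1 hp).2.two_le
        simp only [mem_insert, mem_pri] at hp ⊢
        simp only [hp.2, and_true]
        omega) fun _ _ _ => by positivity
    rw [sum_insert (by simp [mem_pri])] at h4
    push_cast at h2 h4 ⊢
    linarith
  · have : (2 : ℝ) ^ 1 ≤ 2 ^ n := pow_le_pow_right₀ one_le_two (by omega)
    linarith
  · have : (r * g : ℝ) ≤ J := by exact_mod_cast c4
    rw [lz]
    nlinarith [mul_nonneg (Nat.cast_nonneg (α := ℝ) r) g0.le]
  · have : (J + 1 : ℝ) ≤ 64 * r * g := by exact_mod_cast c6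
    rw [lz]
    nlinarith
  · have := Real.log_le_log (by positivity) e4
    rw [Real.log_div (by positivity) two_ne_zero, Real.log_pow] at this
    push_cast
    nlinarith
  · have h1 : (2 * (2 ^ g) ^ 3) ^ (r + 1) * 4 ^ (3 * (n + 1)) *
        ((2 * (2 ^ g) ^ 3) ^ (r + 1) * 4 ^ (3 * (n + 1))) ≤ X := by
      refine le_trans ?_ a2
      rw [show 4 = 2 ^ 2 by norm_num, ← pow_mul, ← pow_mul, ← pow_succ', ← pow_mul, ← pow_add,
        ← pow_add]
      refine Nat.pow_le_pow_right two_pos ?_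
      have : (g * 3 + 1) * (r + 1) ≤ (g * 4) * (r + 1) := Nat.mul_le_mul_right _ (by omega)
      nlinarith
    have h2 : Nat.sqrt X * ((2 * (2 ^ g) ^ 3) ^ (r + 1) * 4 ^ (3 * (n + 1))) ≤ X := by
      rw [← Nat.mul_self_le_mul_self_iff, mul_mul_mul_comm]
      exact Nat.mul_le_mul (Nat.sqrt_le X) h1
    rw [Real.exp_neg, ← div_eq_mul_inv, le_div_iff₀ (Real.exp_pos _), mul_assoc]
    refine le_trans ?_ (Nat.cast_le.2 h2)
    have := exp_le_four (3 * (n + 1))
    push_cast at this ⊢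
    gcongr

theorem ksum {a : ℕ → ℝ} (ha : ∀ p, 0 ≤ a p ∧ a p ≤ 1) {z X : ℕ} (hz : 2 ≤ z) (hX : z ≤ X)
    (A : Finset ℕ) (hA : ∀ k ∈ A, k % 2 = 1 ∧ k ≤ X) :
    ∑ k ∈ A, (1 : ℝ) / k * ∏ p ∈ pri 2 z, (if p ∣ k then a p * Real.exp (3 / p) else 1) ≤
      Real.exp (∑ p ∈ pri 2 z, a p / p + ∑ p ∈ pri z X, (1 : ℝ) / p + 24) := by
  have g0 : ∀ p : ℕ, 0 ≤ a p * Real.exp (3 / p) := fun p => mul_nonneg (ha p).1 (Real.exp_pos _).le
  set c : ℕ → ℝ := fun p => if p ∈ pri 2 z then a p * Real.exp (3 / p) else 1 with hc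
  have c0 : ∀ p, 0 ≤ c p := fun p => by
    simp only [hc]
    split_ifs
    exacts [g0 p, zero_le_one]
  have p3 : ∀ p ∈ pri 2 X, (3 : ℝ) ≤ p := fun p hp => by exact_mod_cast (mem_pri.1 hp).1.1
  refine (euler (fun k => (1 : ℝ) / k *
    ∏ p ∈ pri 2 z, (if p ∣ k then a p * Real.exp (3 / p) else 1))
    (fun n => mul_nonneg (by positivity) (prod_nonneg fun p _ => by
      split_ifs
      exacts [g0 p, zero_le_one]))
    (by rw [prod_eq_one fun p hp => if_neg (mem_pri.1 hp).2.not_dvd_one]; simp)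
    (fun x y h => by
      rw [mul_mul_mul_comm, ← prod_mul_distrib, Nat.cast_mul, one_div_mul_one_div]
      congr 1
      refine prod_congr rfl fun p hp => ?_
      have pp := (mem_pri.1 hp).2
      by_cases h1 : p ∣ x
      · rw [if_pos (h1.mul_right _), if_pos h1, if_neg fun h2 =>
          pp.not_dvd_one (h ▸ Nat.dvd_gcd h1 h2), mul_one]
      · rw [if_neg h1, one_mul]
        exact if_congr (pp.dvd_mul.trans (or_iff_right h1)) rfl rfl)
    (fun p => 1 + c p / (p - 1)) (pri 2 X) (fun p hp => (mem_pri.1 hp).2)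
    (fun p hp => geo (by linarith [p3 p hp]) (c0 p) (by
      rw [pow_zero, prod_eq_one fun p hp => if_neg (mem_pri.1 hp).2.not_dvd_one]; simp)
      fun e => le_of_eq (by
        rw [prod_congr rfl fun x hx => if_congr (show x ∣ p ^ (e + 1) ↔ p = x from
          ⟨fun h => ((Nat.prime_dvd_prime_iff_eq (mem_pri.1 hx).2 (mem_pri.1 hp).2).1
            ((mem_pri.1 hx).2.dvd_of_dvd_pow h)).symm,
            fun h => h ▸ dvd_pow_self _ (Nat.succ_ne_zero e)⟩) rfl rfl, prod_ite_eq]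
        push_cast
        ring)) A fun k hk => ⟨by have := hA k hk; omega, fun p hp => ?_⟩).trans
    ((prod_le_exp fun p hp => ?_).trans (Real.exp_le_exp.2 ?_))
  · obtain ⟨h1, h2, h3⟩ := Nat.mem_primeFactors.1 hp
    refine mem_pri.2 ⟨⟨lt_of_le_of_ne h1.two_le ?_,
      (Nat.le_of_dvd (Nat.pos_of_ne_zero h3) h2).trans (hA k hk).2⟩, h1⟩
    rintro rfl
    have := (hA k hk).1
    omega
  · have := div_nonneg (c0 p) (show (0 : ℝ) ≤ p - 1 by linarith [p3 p hp])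
    linarith
  refine (sum_le_sum (g := fun p : ℕ => (if p ∈ pri 2 z then a p / p else 1 / p) +
    12 * (1 / (p : ℝ) ^ 2)) fun p hp => ?_).trans ?_
  · have h1 := inv_pred (mem_pri.1 hp).2.two_le
    have h2 := p3 p hp
    have h0 : (0 : ℝ) < 1 / p := by positivity
    have h3 : (1 : ℝ) / p ≤ 1 / 3 := one_div_le_one_div_of_le (by norm_num) h2
    rw [← one_div_pow] at h1 ⊢
    simp only [hc]
    split_ifs
    · have h4 := (abs_le.1 (Real.abs_exp_sub_one_le (x := 3 * (1 / p))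
        (by rw [abs_of_pos (by positivity)]; linarith))).2
      rw [abs_of_pos (by positivity)] at h4
      rw [div_eq_mul_one_div 3, div_eq_mul_one_div (a p * _), div_eq_mul_one_div (a p), mul_assoc]
      have h5 : Real.exp (3 * (1 / p)) * (1 / (p - 1)) ≤
          (1 + 6 * (1 / p)) * (1 / p + 2 * (1 / p) ^ 2) :=
        mul_le_mul (by linarith) h1 (one_div_nonneg.2 (by linarith)) (by positivity)
      have h6 : (1 + 6 * (1 / p)) * (1 / p + 2 * (1 / p) ^ 2) ≤ (1 : ℝ) / p + 12 * (1 / p) ^ 2 := by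
        nlinarith [sq_nonneg ((1 : ℝ) / p)]
      nlinarith [ha p, sq_nonneg ((1 : ℝ) / p)]
    · nlinarith [sq_nonneg ((1 : ℝ) / p)]
  · rw [sum_add_distrib, ← mul_sum, sum_ite,
      show (pri 2 X).filter (fun p => p ∈ pri 2 z) = pri 2 z from Finset.ext fun p => by
        simp only [mem_filter, mem_pri]
        exact and_iff_right_of_imp fun h => ⟨by omega, h.2⟩,
      show (pri 2 X).filter (fun p => p ∉ pri 2 z) = pri z X from Finset.ext fun p => by
        simp only [mem_filter, mem_pri]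
        by_cases h : p.Prime
        · simp only [h, and_true]
          omega
        · simp [h]]
    linarith [sum_sq_le 2 X]

end Pool.Agent.MP_110442_nt.Cnt

end MrgPart5

-- marker of a merged file
example : 731051 + 350105 = 731051 + 350105 := rfl
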