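import Mathlib
import Pool.Agent.MP_110442_nt.Cnt.Par

/-! The two counting bounds. -/

set_option autoImplicit false

namespace Pool.Agent.MP_110442_nt.Cnt

open Finset Function
open Pool.Agent.MP_a43263_nt.R2 (pri)
open Pool.Agent.MP_a43263_nt.R2.Mer (mem_pri sum_sq_le log_pos)

/-- Indicator of the primes congruent to one modulo four. -/
noncomputable def ii (p : ℕ) : ℝ := (1 + jj (-1) p) / 2

theorem half (c : ℤ) (p : ℕ) : 0 ≤ (1 + jj c p) / 2 ∧ (1 + jj c p) / 2 ≤ 1 := by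
  have := abs_le.1 (jj_bd c p)
  constructor <;> linarith

/-- The weight attached to the factorisation with smaller factor `k`. -/
noncomputable def wt (v : ℝ) (z k : ℕ) (m : ℤ) : ℝ :=
  ∏ p ∈ pri 2 z, (1 + hh (v / 2 * ii p) (v * ii p * ((1 + jj (2 * k) p) / 2)) p m)

theorem sol_one {n : ℕ} (h : Sol n) (z : ℕ) :
    1 ≤ ∏ p ∈ pri 2 z, (1 + hh (1 * ii p) (1 * ii p) p n) := by
  refine (prod_eq_one fun p hp => ?_).ge
  obtain ⟨⟨h2, -⟩, pp⟩ := mem_pri.1 hp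
  rcases hh_cases pp h2 n with a | ⟨-, a | a⟩
  · rw [a.2.1, ii, sol_all h pp h2 (Or.inl a.1)]; ring
  · rw [a.2.1, ii, sol_all h pp h2 (Or.inr a.1)]; ring
  · rw [a.1, add_zero]

theorem split {v : ℝ} (v0 : 0 ≤ v) (hv : v * v = 2) {n : ℕ} (h : Sol n) (hn : n % 2 = 1) (z : ℕ) :
    1 ≤ ∏ p ∈ pri 2 z, (1 + hh (v * ii p) (v / 2 * ii p) p n) ∨
      ∃ k l : ℕ, n = k * l ∧ k ≤ l ∧ 1 ≤ wt v z k (k * l) := by
  obtain ⟨k, l, e, hkl, hk⟩ := sol_odd h hn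
  refine or_iff_not_imp_left.2 fun h1 => ⟨k, l, e, hkl, ?_⟩
  rw [← Nat.cast_mul, ← e]
  have h2 : (∏ p ∈ pri 2 z, (1 + hh (v * ii p) (v / 2 * ii p) p n)) * wt v z k n = 1 := by
    rw [wt, ← prod_mul_distrib]
    refine prod_eq_one fun p hp => ?_
    obtain ⟨⟨h2, -⟩, pp⟩ := mem_pri.1 hp
    rcases hh_cases pp h2 n with a | ⟨-, a | a⟩
    · rw [a.2.1, a.2.1, ii, sol_all h pp h2 (Or.inl a.1)]; linear_combination hv / 2
    · rw [a.2.1, a.2.1, ii, sol_all h pp h2 (Or.inr a.1), hk p pp h2 a.1]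
      linear_combination hv / 2
    · rw [a.1, a.1]; ring
  have h3 : 0 ≤ ∏ p ∈ pri 2 z, (1 + hh (v * ii p) (v / 2 * ii p) p n) := prod_nonneg fun p hp => by
    obtain ⟨⟨h2, -⟩, pp⟩ := mem_pri.1 hp
    have := mul_nonneg v0 (show 0 ≤ ii p from (half _ _).1)
    rcases hh_cases pp h2 n with a | ⟨-, a | a⟩
    · rw [a.2.1]; linarith
    · rw [a.2.1]; linarith
    · rw [a.1]; norm_num
  by_contra h4
  nlinarith [mul_nonneg h3 (sub_nonneg.2 (not_le.1 h4).le)]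

theorem single {a b : ℝ} (ha : 0 ≤ a ∧ a ≤ 2) (hb : 0 ≤ b ∧ b ≤ 2) {z : ℕ} (hz : 1 ≤ z) {lam : ℝ}
    (hl : ∑ p ∈ pri 0 z, (1 : ℝ) / p ≤ lam) (r N : ℕ) (E : Finset ℕ)
    (hE : ∀ n ∈ E, n < N ∧ 1 ≤ ∏ p ∈ pri 2 z, (1 + hh (a * ii p) (b * ii p) p n)) :
    (E.card : ℝ) ≤ N * Real.exp (((a + 2 * b) / 2 - 3) * ∑ p ∈ pri 2 z, (1 : ℝ) / p +
      (a + 2 * b) / 2 * ∑ p ∈ pri 2 z, jj (-1) p / p + 4) +
      3 * N * Real.exp (24 * lam) / 4 ^ (r + 1) + 18 * (2 * z ^ 3 : ℝ) ^ (r + 1) := by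
  have bd : ∀ {a : ℝ}, 0 ≤ a ∧ a ≤ 2 → ∀ p, 0 ≤ a * ii p ∧ a * ii p ≤ 2 := fun h p =>
    ⟨mul_nonneg h.1 (half _ _).1, (mul_le_of_le_one_right h.1 (half _ _).2).trans h.2⟩
  have := count (k := 1) hz Subset.rfl (fun p hp => (mem_pri.1 hp).2.not_dvd_one) (bd ha) (bd hb)
    zero_le_one le_rfl hl r N E (by simpa only [Nat.cast_one, one_mul] using hE)
  rwa [one_mul, show ∑ p ∈ pri 2 z, (a * ii p + 2 * (b * ii p) - 3) / p =
      ((a + 2 * b) / 2 - 3) * ∑ p ∈ pri 2 z, (1 : ℝ) / p +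
        (a + 2 * b) / 2 * ∑ p ∈ pri 2 z, jj (-1) p / p by
    rw [mul_sum, mul_sum, ← sum_add_distrib]
    exact sum_congr rfl fun p _ => by rw [ii]; ring] at this

theorem pair {v : ℝ} (v0 : 0 ≤ v) (v2 : v ≤ 2) {z k : ℕ} (hz : 1 ≤ z) {lam T : ℝ}
    (hl : ∑ p ∈ pri 0 z, (1 : ℝ) / p ≤ lam) (h1 : ∑ p ∈ pri 2 z, jj (2 * 1 * k) p / p ≤ T)
    (h2 : ∑ p ∈ pri 2 z, jj (2 * -1 * k) p / p ≤ T) (r N : ℕ) (E : Finset ℕ)
    (hE : ∀ l ∈ E, l < N ∧ 1 ≤ wt v z k (k * l)) :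
    (E.card : ℝ) ≤ N * (∏ p ∈ pri 2 z, (if p ∣ k then v / 2 * ii p * Real.exp (3 / p) else 1)) *
      Real.exp ((3 * v / 4 - 3) * ∑ p ∈ pri 2 z, (1 : ℝ) / p +
        3 * v / 4 * ∑ p ∈ pri 2 z, jj (-1) p / p + v * T + 4) +
      3 * N * Real.exp (24 * lam) / 4 ^ (r + 1) + 18 * (2 * z ^ 3 : ℝ) ^ (r + 1) := by
  have ha : ∀ p, 0 ≤ v / 2 * ii p ∧ v / 2 * ii p ≤ 1 := fun p =>
    ⟨mul_nonneg (by linarith) (half _ _).1, mul_le_one₀ (by linarith) (half _ _).1 (half _ _).2⟩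
  have hb : ∀ p, 0 ≤ v * ii p * ((1 + jj (2 * k) p) / 2) ∧
      v * ii p * ((1 + jj (2 * k) p) / 2) ≤ 2 := fun p =>
    ⟨mul_nonneg (mul_nonneg v0 (half _ _).1) (half _ _).1,
      (mul_le_of_le_one_right (mul_nonneg v0 (half _ _).1) (half _ _).2).trans
        ((mul_le_of_le_one_right v0 (half _ _).2).trans v2)⟩
  have W0 : 0 ≤ ∏ p ∈ (pri 2 z).filter (· ∣ k), v / 2 * ii p := prod_nonneg fun p _ => (ha p).1
  refine (count (P := (pri 2 z).filter fun p => ¬ p ∣ k) hz (filter_subset _ _)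
    (fun p hp => (mem_filter.1 hp).2) (fun p => ⟨(ha p).1, (ha p).2.trans one_le_two⟩) hb W0
    (prod_le_one (fun p _ => (ha p).1) fun p _ => (ha p).2) hl r N E fun l hl =>
      ⟨(hE l hl).1, (hE l hl).2.trans (le_of_eq ?_)⟩).trans (add_le_add_left (add_le_add_left ?_ _) _)
  · rw [wt, ← prod_filter_mul_prod_filter_not (pri 2 z) (· ∣ k)]
    congr 1
    refine prod_congr rfl fun p hp => ?_
    obtain ⟨hp, hd⟩ := mem_filter.1 hp
    rcases hh_cases (mem_pri.1 hp).2 (mem_pri.1 hp).1.1 (k * l) with a | a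
    · rw [a.2.1]; ring
    · exact absurd ((Int.natCast_dvd_natCast.2 hd).mul_right _) a.1
  rw [← prod_filter, prod_mul_distrib (g := fun p : ℕ => Real.exp (3 / p)), ← Real.exp_sum,
    mul_comm _ (N : ℝ), mul_assoc, mul_assoc,
    mul_assoc, ← Real.exp_add]
  refine mul_le_mul_of_nonneg_left (mul_le_mul_of_nonneg_left (Real.exp_le_exp.2 ?_) W0)
    (Nat.cast_nonneg _)
  have e1 := sum_filter_add_sum_filter_not (pri 2 z) (· ∣ k) fun p : ℕ =>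
    (v / 2 * ii p + 2 * (v * ii p * ((1 + jj (2 * k) p) / 2)) - 3) / p
  have e2 : ∑ p ∈ (pri 2 z).filter (· ∣ k), -(3 / (p : ℝ)) ≤ ∑ p ∈ (pri 2 z).filter (· ∣ k),
      (v / 2 * ii p + 2 * (v * ii p * ((1 + jj (2 * k) p) / 2)) - 3) / p := sum_le_sum fun p _ => by
    rw [← neg_div]
    exact div_le_div_of_nonneg_right (by linarith [(ha p).1, (hb p).1]) (Nat.cast_nonneg _)
  have e3 : ∑ p ∈ pri 2 z, (v / 2 * ii p + 2 * (v * ii p * ((1 + jj (2 * k) p) / 2)) - 3) / p =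
      (3 * v / 4 - 3) * ∑ p ∈ pri 2 z, (1 : ℝ) / p + 3 * v / 4 * ∑ p ∈ pri 2 z, jj (-1) p / p +
        v / 2 * ∑ p ∈ pri 2 z, jj (2 * 1 * k) p / p +
        v / 2 * ∑ p ∈ pri 2 z, jj (2 * -1 * k) p / p := by
    simp only [mul_sum, ← sum_add_distrib]
    refine sum_congr rfl fun p _ => ?_
    rw [show (2 * -1 * k : ℤ) = -1 * (2 * k) by ring, jj_mul (-1), mul_one, ii]
    ring
  rw [sum_neg_distrib] at e2
  nlinarith [mul_le_mul_of_nonneg_left h1 v0, mul_le_mul_of_nonneg_left h2 v0]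

/-- The facts about the parameters used below. -/
structure Ctx (X q r z : ℕ) (L T ε : ℝ) : Prop where
  z2 : 2 ≤ z
  zX : z ≤ X
  hl : ∑ p ∈ pri 0 z, (1 : ℝ) / p ≤ 2 * q
  T0 : 0 ≤ T
  e0 : 0 ≤ ε
  b1 : L ≤ ∑ p ∈ pri 2 z, (1 : ℝ) / p + T
  b2 : ∑ p ∈ pri z X, (1 : ℝ) / p ≤ T
  b3 : ∑ p ∈ pri 2 z, jj (-1) p / p ≤ T
  b4 : ∀ (e : ℤ) (k : ℕ), e.natAbs = 1 → k % 2 = 1 → mid (2 * e) q r z k ≤ 6 →
    ∑ p ∈ pri 2 z, jj (2 * e * k) p / p ≤ T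
  c1 : Real.exp (24 * (2 * q)) / 4 ^ (r + 1) * (1 + Real.log X) ≤ 2 * ε
  c2 : Nat.sqrt X * (2 * z ^ 3 : ℝ) ^ (r + 1) ≤ X * ε
  c3 : ∀ c : ℤ, ∑ k ∈ Ioc 0 X, (if 6 < mid c q r z k then (1 : ℝ) / k else 0) ≤ 8 * ε

theorem sing {X q r z : ℕ} {L T ε : ℝ} (H : Ctx X q r z L T ε) {a b : ℝ} (ha : 0 ≤ a ∧ a ≤ 2)
    (hb : 0 ≤ b ∧ b ≤ 2) (E : Finset ℕ)
    (hE : ∀ n ∈ E, n ≤ X ∧ 1 ≤ ∏ p ∈ pri 2 z, (1 + hh (a * ii p) (b * ii p) p n)) :
    (E.card : ℝ) ≤ 2 * X * Real.exp (L * ((a + 2 * b) / 2 - 3) + 6 * T + 34) + 30 * X * ε := by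
  have z2 := H.z2
  have X1 : 1 ≤ X := by have := H.zX; omega
  have X2 : (1 : ℝ) ≤ X := by exact_mod_cast X1
  have h1 := single ha hb (by omega) H.hl r (X + 1) E fun n hn =>
    ⟨Nat.lt_succ_of_le (hE n hn).1, (hE n hn).2⟩
  have b1 := mul_le_mul_of_nonneg_left H.b1 (show 0 ≤ 3 - (a + 2 * b) / 2 by linarith)
  have b3 := mul_le_mul_of_nonneg_left H.b3 (show 0 ≤ (a + 2 * b) / 2 by linarith)
  have c1 := H.c1
  have c2 : (2 * z ^ 3 : ℝ) ^ (r + 1) ≤ X * ε := le_trans (le_mul_of_one_le_left (by positivity)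
    (by exact_mod_cast Nat.sqrt_pos.2 X1)) H.c2
  have c0 : 0 ≤ Real.exp (24 * (2 * q)) / 4 ^ (r + 1) := by positivity
  rw [mul_div_assoc, mul_assoc 3] at h1
  generalize ∑ p ∈ pri 2 z, (1 : ℝ) / p = Λ at *
  generalize ∑ p ∈ pri 2 z, jj (-1) p / p = χ at *
  generalize Real.exp (24 * (2 * q)) / 4 ^ (r + 1) = τ at *
  have h2 : Real.exp (((a + 2 * b) / 2 - 3) * Λ + (a + 2 * b) / 2 * χ + 4) ≤
      Real.exp (L * ((a + 2 * b) / 2 - 3) + 6 * T + 34) := Real.exp_le_exp.2 (by linarith [H.T0])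
  have h3 : ((X + 1 : ℕ) : ℝ) ≤ 2 * X := by push_cast; linarith
  have h4 := mul_le_mul h3 h2 (Real.exp_pos _).le (by positivity)
  have h5 := mul_le_mul h3 ((le_mul_of_one_le_right c0
    (le_add_of_nonneg_right (Real.log_natCast_nonneg X))).trans c1) c0 (by positivity)
  linarith

theorem odd_bd {X q r z : ℕ} {L T ε : ℝ} (H : Ctx X q r z L T ε) {v : ℝ} (v0 : 0 ≤ v)
    (hv : v * v = 2) (S : Finset ℕ) (hS : ∀ n ∈ S, n ≤ X ∧ n % 2 = 1 ∧ Sol n) :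
    (S.card : ℝ) ≤ 4 * X * Real.exp (L * (v - 3) + 6 * T + 34) + 92 * X * ε := by
  classical
  have v2 : v ≤ 2 := by nlinarith
  have z2 := H.z2
  obtain ⟨E, hE⟩ : ∃ E, E = S.filter fun n : ℕ =>
    1 ≤ ∏ p ∈ pri 2 z, (1 + hh (v * ii p) (v / 2 * ii p) p n) := ⟨_, rfl⟩
  obtain ⟨K, hK⟩ : ∃ K, K = (Ioc 0 (Nat.sqrt X)).filter fun k => k % 2 = 1 := ⟨_, rfl⟩
  obtain ⟨F, hF⟩ : ∃ F : ℕ → Finset ℕ,
    ∀ k, F k = (range (X / k + 1)).filter fun l : ℕ => 1 ≤ wt v z k (k * l) := ⟨_, fun _ => rfl⟩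
  have d1 : S.card ≤ E.card + ∑ k ∈ K, (F k).card := by
    refine (card_le_card (t := E ∪ K.biUnion fun k => (F k).image (k * ·)) fun n hn => ?_).trans
      ((card_union_le _ _).trans (add_le_add_right (card_biUnion_le.trans
        (sum_le_sum fun k _ => card_image_le)) _))
    obtain ⟨h1, h2, h3⟩ := hS n hn
    rcases split v0 hv h3 h2 z with h | ⟨k, l, rfl, h4, h5⟩
    · exact mem_union_left _ (hE ▸ mem_filter.2 ⟨hn, h⟩)
    · have h6 := Nat.odd_iff.1 (Nat.odd_mul.1 (Nat.odd_iff.2 h2)).1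
      exact mem_union_right _ (mem_biUnion.2 ⟨k, hK ▸ mem_filter.2 ⟨mem_Ioc.2 ⟨by omega,
        Nat.le_sqrt.2 ((Nat.mul_le_mul_left k h4).trans h1)⟩, h6⟩, mem_image.2 ⟨l, hF k ▸
          mem_filter.2 ⟨mem_range.2 (Nat.lt_succ_of_le ((Nat.le_div_iff_mul_le (by omega)).2
            (by rwa [mul_comm]))), h5⟩, rfl⟩⟩)
  have d2 := sing H ⟨v0, v2⟩ (b := v / 2) ⟨by linarith, by linarith⟩ E fun n hn => by
    rw [hE, mem_filter] at hn
    exact ⟨(hS n hn.1).1, hn.2⟩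
  rw [show (v + 2 * (v / 2)) / 2 - 3 = v - 3 by ring] at d2
  have mK : ∀ k ∈ K, k ∈ Ioc 0 X ∧ k % 2 = 1 := fun k hk => by
    rw [hK, mem_filter] at hk
    exact ⟨Ioc_subset_Ioc_right (Nat.sqrt_le_self X) hk.1, hk.2⟩
  obtain ⟨A, hA⟩ : ∃ A, A = Real.exp ((3 * v / 4 - 3) * ∑ p ∈ pri 2 z, (1 : ℝ) / p +
    3 * v / 4 * ∑ p ∈ pri 2 z, jj (-1) p / p + v * T + 4) := ⟨_, rfl⟩
  obtain ⟨τ, hτ⟩ : ∃ τ, τ = Real.exp (24 * (2 * q)) / 4 ^ (r + 1) := ⟨_, rfl⟩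
  obtain ⟨B, hB⟩ : ∃ B, B = (2 * z ^ 3 : ℝ) ^ (r + 1) := ⟨_, rfl⟩
  obtain ⟨G, hG⟩ : ∃ G : ℕ → ℝ, ∀ k, G k =
    ∏ p ∈ pri 2 z, (if p ∣ k then v / 2 * ii p * Real.exp (3 / p) else 1) := ⟨_, fun _ => rfl⟩
  obtain ⟨bad, hbad⟩ : ∃ bad : ℤ → ℕ → ℝ, ∀ e k, bad e k =
    if 6 < mid (2 * e) q r z k then (1 : ℝ) / k else 0 := ⟨_, fun _ _ => rfl⟩
  have A0 : 0 ≤ A := hA ▸ (Real.exp_pos _).le
  have τ0 : 0 ≤ τ := by rw [hτ]; positivity
  have B0 : 0 ≤ B := by rw [hB]; positivity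
  have X0 : (0 : ℝ) ≤ 2 * X := by positivity
  have bad0 : ∀ e k, 0 ≤ bad e k := fun e k => by
    rw [hbad]
    split_ifs <;> positivity
  have d3 : ∀ k ∈ K, ((F k).card : ℝ) ≤ 2 * X * A * (1 / k * G k) + 6 * X * τ * (1 / k) +
      18 * B + 2 * X * bad 1 k + 2 * X * bad (-1) k := by
    intro k hk
    obtain ⟨h1, h2⟩ := mK k hk
    obtain ⟨h3, h4⟩ := mem_Ioc.1 h1
    have k0 : (0 : ℝ) < k := by exact_mod_cast h3
    have hN : ((X / k + 1 : ℕ) : ℝ) ≤ 2 * X * (1 / k) := by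
      have h5 : ((X / k : ℕ) : ℝ) ≤ X / k := Nat.cast_div_le
      have h6 : (1 : ℝ) ≤ X / k := (one_le_div k0).2 (by exact_mod_cast h4)
      rw [mul_assoc, mul_one_div, Nat.cast_add_one]
      linarith
    have P0 : 0 ≤ G k := hG k ▸ prod_nonneg fun p _ => by
      have := (half (-1) p).1
      unfold ii
      split_ifs <;> positivity
    have B1 := mul_nonneg X0 (bad0 1 k)
    have B2 := mul_nonneg X0 (bad0 (-1) k)
    have hc : ((F k).card : ℝ) ≤ 2 * X * (1 / k) :=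
      le_trans (by rw [hF]; exact_mod_cast (card_filter_le _ _).trans (card_range _).le) hN
    have R0 : 0 ≤ 2 * X * A * (1 / k * G k) + 6 * X * τ * (1 / k) + 18 * B := by positivity
    by_cases e1 : 6 < mid (2 * 1) q r z k
    · rw [hbad 1, if_pos e1]
      linarith
    by_cases e2 : 6 < mid (2 * -1) q r z k
    · rw [hbad (-1), if_pos e2]
      linarith
    have h5 := pair v0 v2 (by omega) H.hl (H.b4 1 k rfl h2 (not_lt.1 e1))
      (H.b4 (-1) k rfl h2 (not_lt.1 e2)) r (X / k + 1) (F k) fun l hl => by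
        rwa [hF, mem_filter, mem_range] at hl
    rw [mul_div_assoc (3 * _), ← hA, ← hτ, ← hB, ← hG] at h5
    have h6 := mul_le_mul_of_nonneg_right hN (mul_nonneg P0 A0)
    have h7 := mul_le_mul_of_nonneg_right hN τ0
    linarith
  have d4 := sum_le_sum d3
  rw [sum_add_distrib, sum_add_distrib, sum_add_distrib, sum_add_distrib, ← mul_sum, ← mul_sum,
    ← mul_sum, ← mul_sum, ← mul_sum, sum_const, nsmul_eq_mul] at d4
  have s1 := ksum (a := fun p => v / 2 * ii p) (fun p => ⟨mul_nonneg (by linarith) (half _ _).1,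
    mul_le_one₀ (by linarith) (half _ _).1 (half _ _).2⟩) z2 H.zX K
    fun k hk => ⟨(mK k hk).2, (mem_Ioc.1 (mK k hk).1).2⟩
  simp only [← hG] at s1
  have s2 : A * Real.exp (∑ p ∈ pri 2 z, v / 2 * ii p / p + ∑ p ∈ pri z X, (1 : ℝ) / p + 24) ≤
      Real.exp (L * (v - 3) + 6 * T + 34) := by
    rw [hA, ← Real.exp_add, Real.exp_le_exp, show ∑ p ∈ pri 2 z, v / 2 * ii p / p =
      v / 4 * ∑ p ∈ pri 2 z, (1 : ℝ) / p + v / 4 * ∑ p ∈ pri 2 z, jj (-1) p / p by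
        rw [mul_sum, mul_sum, ← sum_add_distrib]
        exact sum_congr rfl fun p _ => by rw [ii]; ring]
    linarith [mul_le_mul_of_nonneg_left H.b1 (show 0 ≤ 3 - v by linarith), H.b2,
      mul_le_mul_of_nonneg_left H.b3 v0, mul_le_mul_of_nonneg_right v2 H.T0]
  have s3 : ∑ k ∈ K, (1 : ℝ) / k ≤ 1 + Real.log X :=
    (sum_le_sum_of_subset_of_nonneg (fun k hk => (mK k hk).1) fun _ _ _ => by positivity).trans
      (harm X)
  have s4 : ∀ e, ∑ k ∈ K, bad e k ≤ 8 * ε := fun e =>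
    (sum_le_sum_of_subset_of_nonneg (fun k hk => (mK k hk).1) fun k _ _ => bad0 e k).trans
      (by simpa only [hbad] using H.c3 (2 * e))
  have s5 : (K.card : ℝ) * B ≤ X * ε := by
    refine le_trans (mul_le_mul_of_nonneg_right ?_ B0) (hB ▸ H.c2)
    rw [hK]
    exact_mod_cast (card_filter_le _ _).trans (by simp)
  have s6 := mul_le_mul_of_nonneg_left ((mul_le_mul_of_nonneg_left s1 A0).trans s2) X0
  have s7 := mul_le_mul_of_nonneg_left ((mul_le_mul_of_nonneg_left s3 τ0).trans (hτ ▸ H.c1)) X0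
  have s8 := mul_le_mul_of_nonneg_left (s4 1) X0
  have s9 := mul_le_mul_of_nonneg_left (s4 (-1)) X0
  have d5 : (S.card : ℝ) ≤ E.card + ∑ k ∈ K, ((F k).card : ℝ) := by exact_mod_cast d1
  linarith

theorem ctx : ∃ (D : ℝ) (X0 : ℕ), ∀ X : ℕ, X0 ≤ X → 1 ≤ Real.log X ∧ ∃ (q r z : ℕ) (T : ℝ),
    Ctx X q r z (Real.log (Real.log X)) T (Real.exp (-(3 * q))) ∧ Real.exp T = D * q ^ 7 ∧
      Real.log (Real.log X) ≤ q ∧ (q : ℝ) ≤ 4 * Real.log (Real.log X) := by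
  obtain ⟨M, M0, hM⟩ := mertens
  obtain ⟨C, C1, hC⟩ := good_sum
  obtain ⟨X0, hX0⟩ := params hM
  refine ⟨C * 10 ^ 4 * 2 * Real.exp 7 * 6400 * Real.exp M, X0, fun X hX => ?_⟩
  obtain ⟨q, r, z, hr, hq, z2, zX, hl, a1, a2, a3, a4, a5, a6, a7⟩ := hX0 X hX
  clear hX0
  have q1 : (1 : ℝ) ≤ q := by exact_mod_cast hq
  have rq : (r : ℝ) = 100 * q ^ 2 := by exact_mod_cast hr
  have r1 : 100 * (q : ℝ) ≤ r := by nlinarith
  have r2 : 1 ≤ r := by exact_mod_cast (by linarith : (1 : ℝ) ≤ r)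
  have f4 : ∀ x : ℝ, x ≤ r → 4 * Real.exp x ≤ 4 ^ (r + 1) := fun x hx => by
    rw [pow_succ']
    linarith [Real.exp_le_exp.2 hx, exp_le_four r]
  have eq1 : 1 ≤ Real.exp q := Real.one_le_exp (by linarith)
  obtain ⟨g1, g2⟩ := hC q r z hq r2 hl (by
    refine le_trans ?_ (f4 (q + 32 * q) (by linarith))
    rw [Real.exp_add]
    nlinarith [Real.exp_pos (32 * q)])
  have ht : Real.exp (16 * q ^ 2) ≤ 8 ^ (r + 1) := by
    have h1 := f4 (16 * q ^ 2) (by nlinarith)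
    have h2 : (4 : ℝ) ^ (r + 1) ≤ 8 ^ (r + 1) := by gcongr; norm_num
    linarith [Real.exp_pos (16 * q ^ 2)]
  have lz := log_pos z2
  have t1 : 0 ≤ Real.log (C * r ^ 2) := Real.log_nonneg (one_le_mul_of_one_le_of_one_le C1
    (one_le_pow₀ (by linarith)))
  have t2 : 0 ≤ Real.log (2 * q) := Real.log_nonneg (by linarith)
  have t3 : 0 ≤ Real.log (64 * r) := Real.log_nonneg (by linarith)
  refine ⟨a3, q, r, z, Real.log (C * r ^ 2) + Real.log (2 * q) + 7 + Real.log (64 * r) + M,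
    ⟨z2, zX, hl, by linarith, (Real.exp_pos _).le, ?_, ?_, by linarith,
      fun e k h1 h2 h3 => by linarith [g2 e k h1 h2 h3], ?_, a7, fun c => ?_⟩, ?_,
    (Real.log_le_iff_le_exp (by linarith)).2 a2, a6⟩
  · have h1 := (abs_le.1 (hM 2 z le_rfl z2)).1
    have h2 := Real.log_le_log (by linarith) a5
    have h3 := Real.log_le_log lz (le_div_self lz.le (log_pos le_rfl)
      (by push_cast; linarith [Real.log_two_lt_d9]))
    rw [Real.log_mul (by positivity) lz.ne'] at h2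
    linarith
  · have h1 := (abs_le.1 (hM z X z2 zX)).2
    have h2 := Real.log_le_log (by positivity) ((div_le_iff₀ lz).2 a5)
    linarith
  · refine (mul_le_mul_of_nonneg_left (show _ ≤ 2 * Real.exp q by linarith)
      (by positivity)).trans ?_
    rw [div_mul_eq_mul_div, div_le_iff₀ (by positivity)]
    refine le_trans ?_ (mul_le_mul_of_nonneg_left (f4 (52 * q) (by linarith)) (by positivity))
    have h1 : Real.exp (-(3 * q)) * Real.exp (52 * q) = Real.exp (24 * (2 * q)) * Real.exp q := by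
      rw [← Real.exp_add, ← Real.exp_add]
      congr 1
      ring
    linarith [mul_pos (Real.exp_pos (24 * (2 * q))) (Real.exp_pos q)]
  · rw [← sum_filter]
    refine (bad_sum _ hq hl ht X).trans ((mul_le_mul_of_nonneg_right a1 (by positivity)).trans
      (le_of_eq ?_))
    rw [mul_left_comm, ← Real.exp_add]
    congr 2
    ring
  · rw [Real.exp_add, Real.exp_add, Real.exp_add, Real.exp_add, Real.exp_log (by positivity),
      Real.exp_log (by positivity), Real.exp_log (by positivity), rq]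
    ring

theorem main {v : ℝ} (v0 : 0 ≤ v) (hv : v * v = 2) : ∃ (C : ℝ) (X0 : ℕ), ∀ X : ℕ, X0 ≤ X →
    1 ≤ Real.log X ∧ (∀ S : Finset ℕ, (∀ n ∈ S, n ≤ X ∧ n % 2 = 1 ∧ Sol n) → (S.card : ℝ) ≤
      C * X * Real.exp (Real.log (Real.log X) * (v - 3)) * Real.log (Real.log X) ^ 42) ∧
    ∀ S : Finset ℕ, (∀ n ∈ S, n ≤ X ∧ Sol n) → (S.card : ℝ) ≤
      C * X * Real.exp (Real.log (Real.log X) * (-3 / 2)) * Real.log (Real.log X) ^ 42 := by
  obtain ⟨D, X0, h⟩ := ctx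
  refine ⟨100 * Real.exp 34 * D ^ 6 * 4 ^ 42, X0, fun X hX => ?_⟩
  obtain ⟨a3, q, r, z, T, H, eT, Lq, qL⟩ := h X hX
  have L0 := Real.log_nonneg a3
  generalize Real.log (Real.log X) = L at *
  have X0 : (0 : ℝ) ≤ X := Nat.cast_nonneg _
  have fin : ∀ s x : ℝ, -3 ≤ s →
      x ≤ 4 * X * Real.exp (L * s + 6 * T + 34) + 92 * X * Real.exp (-(3 * q)) →
      x ≤ 100 * Real.exp 34 * D ^ 6 * 4 ^ 42 * X * Real.exp (L * s) * L ^ 42 := by
    intro s x hs hx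
    have h1 : Real.exp (-(3 * q)) ≤ Real.exp (L * s + 6 * T + 34) :=
      Real.exp_le_exp.2 (by nlinarith [H.T0])
    have h2 : (q : ℝ) ^ 42 ≤ 4 ^ 42 * L ^ 42 := by rw [← mul_pow]; gcongr
    have h3 : Real.exp (L * s + 6 * T + 34) = Real.exp 34 * D ^ 6 * Real.exp (L * s) * q ^ 42 := by
      rw [Real.exp_add, Real.exp_add, show 6 * T = (6 : ℕ) * T by norm_num, Real.exp_nat_mul, eT,
        mul_pow, ← pow_mul]
      ring
    have h4 : x ≤ 100 * X * Real.exp (L * s + 6 * T + 34) := by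
      linarith [mul_le_mul_of_nonneg_left h1 X0,
        mul_nonneg X0 (Real.exp_pos (L * s + 6 * T + 34)).le]
    rw [h3] at h4
    exact h4.trans ((mul_le_mul_of_nonneg_left (mul_le_mul_of_nonneg_left h2 (by positivity))
      (by positivity)).trans (le_of_eq (by ring)))
  refine ⟨a3, fun S hS => fin _ _ (by linarith) (odd_bd H v0 hv S hS),
    fun S hS => fin _ _ (by norm_num) ?_⟩
  have := sing H (a := 1) (b := 1) (by norm_num) (by norm_num) S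
    fun n hn => ⟨(hS n hn).1, sol_one (hS n hn).2 z⟩
  rw [show ((1 : ℝ) + 2 * 1) / 2 - 3 = -3 / 2 by norm_num] at this
  linarith [mul_nonneg X0 (Real.exp_pos (L * (-3 / 2) + 6 * T + 34)).le, mul_nonneg X0 H.e0]

end Pool.Agent.MP_110442_nt.Cnt
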